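import Pool.Agent.DF49E3.Defs

set_option autoImplicit false

/-!
B1: the Clausen type formula for the square of a Legendre polynomial.
-/

namespace Pool.Agent.BC90323

namespace B1

open Polynomial

variable {K : Type*} [Field K]

/-- `Y = X + X²` -/
noncomputable def Y : K[X] := X + X ^ 2

theorem derivative_Y : derivative (Y : K[X]) = 1 + 2 * X := by
  unfold Y
  simp
  norm_num

theorem derivative_two_X : derivative (1 + 2 * X : K[X]) = 2 := by
  have : (2 : K[X]) = C 2 := rfl
  rw [this]
  simp

theorem sq_Y' : (1 + 2 * X : K[X]) ^ 2 = 1 + 4 * Y := by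
  unfold Y; ring

theorem coeff_Y_mul (p : K[X]) (k : ℕ) :
    (Y * derivative p).coeff (k + 1) = (k + 1) * p.coeff (k + 1) + k * p.coeff k := by
  unfold Y
  have h : (X + X ^ 2) * derivative p = X * derivative p + X * (X * derivative p) := by ring
  rw [h, coeff_add, coeff_X_mul, coeff_X_mul, coeff_derivative]
  rcases k with _ | k
  · simp
  · rw [coeff_X_mul, coeff_derivative]
    push_cast
    ring

theorem coeff_Y_mul_zero (p : K[X]) : (Y * derivative p).coeff 0 = 0 := by
  unfold Y
  have h : (X + X ^ 2) * derivative p = X * ((1 + X) * derivative p) := by ring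
  rw [h, coeff_X_mul_zero]

/-- the operator of the differential equation -/
noncomputable def L (N : K) (d : K[X]) : K[X] :=
  derivative (Y * derivative (Y * derivative d)) -
    (C (2 * N) * (1 + 2 * X) * d + C (4 * N) * (Y * derivative d))

theorem L_sub (N : K) (d e : K[X]) : L N (d - e) = L N d - L N e := by
  unfold L
  simp only [derivative_sub, mul_sub]
  ring

theorem L_C_mul (N c : K) (d : K[X]) : L N (C c * d) = C c * L N d := by
  unfold L
  have h1 : derivative (C c * d) = C c * derivative d := derivative_C_mul c d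
  have h2 : Y * (C c * derivative d) = C c * (Y * derivative d) := by ring
  have h3 : derivative (C c * (Y * derivative d)) = C c * derivative (Y * derivative d) :=
    derivative_C_mul _ _
  have h4 : Y * (C c * derivative (Y * derivative d)) =
      C c * (Y * derivative (Y * derivative d)) := by ring
  rw [h1, h2, h3, h4, derivative_C_mul]
  ring

theorem L_sum {ι : Type*} (N : K) (s : Finset ι) (f : ι → K[X]) :
    L N (∑ i ∈ s, f i) = ∑ i ∈ s, L N (f i) := by
  classical
  have h0 : L N 0 = 0 := by unfold L; simp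
  have hadd : ∀ d e, L N (d + e) = L N d + L N e := by
    intro d e
    unfold L
    simp only [derivative_add, mul_add]
    ring
  induction s using Finset.induction_on with
  | empty => simpa using h0
  | insert a s ha ih => rw [Finset.sum_insert ha, hadd, ih, Finset.sum_insert ha]

theorem eq_zero_of_L [CharZero K] (N : K) (d : K[X]) (h0 : d.coeff 0 = 0) (h : L N d = 0) :
    d = 0 := by
  have key : ∀ m, ∀ j ≤ m, d.coeff j = 0 := by
    intro m
    induction m with
    | zero =>
      intro j hj
      obtain rfl : j = 0 := by omega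
      exact h0
    | succ m ih =>
      intro j hj
      rcases Nat.lt_or_ge j (m + 1) with hlt | hge
      · exact ih j (by omega)
      obtain rfl : j = m + 1 := by omega
      have hm := ih m le_rfl
      have h1 : (L N d).coeff m = 0 := by rw [h]; simp
      unfold L at h1
      rw [coeff_sub, coeff_derivative, coeff_Y_mul, coeff_Y_mul] at h1
      have e1 : (C (2 * N) * (1 + 2 * X) * d).coeff m = 0 := by
        have : C (2 * N) * (1 + 2 * X) * d = C (2 * N) * d + C (2 * (2 * N)) * (X * d) := by
          simp only [map_mul, map_ofNat]; ring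
        rw [this, coeff_add, coeff_C_mul, coeff_C_mul, hm]
        rcases m with _ | m
        · simp
        · rw [coeff_X_mul, ih m (by omega)]; simp
      have e2 : (Y * derivative d).coeff m = 0 := by
        rcases m with _ | m
        · exact coeff_Y_mul_zero d
        · rw [coeff_Y_mul, hm, ih m (by omega)]; simp
      rw [coeff_add, e1, coeff_C_mul, e2, hm] at h1
      have h2 : ((m : K) + 1) ^ 3 * d.coeff (m + 1) = 0 := by linear_combination h1
      have h3 : ((m : K) + 1) ≠ 0 := by exact_mod_cast Nat.succ_ne_zero m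
      exact (mul_eq_zero.mp h2).resolve_left (pow_ne_zero 3 h3)
  ext j
  rw [key j j le_rfl, coeff_zero]

theorem L_pow (N : K) (k : ℕ) : L N (Y ^ k) = (1 + 2 * X) *
    (C ((k : K) ^ 3) * Y ^ (k - 1) -
      C (2 * (2 * (k : K) + 1) * (N - (k : K) * ((k : K) + 1))) * Y ^ k) := by
  rcases k with _ | k
  · unfold L
    simp
    ring
  · unfold L
    have h1 : Y * derivative (Y ^ (k + 1) : K[X]) = C ((k : K) + 1) * (Y ^ (k + 1) * (1 + 2 * X)) := by
      rw [derivative_pow, derivative_Y]
      simp only [Nat.cast_add, Nat.cast_one, Nat.add_sub_cancel]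
      ring
    have h2 : derivative (Y ^ (k + 1) * (1 + 2 * X) : K[X]) =
        C ((k : K) + 1) * Y ^ k * (1 + 4 * Y) + 2 * Y ^ (k + 1) := by
      rw [derivative_mul, derivative_pow, derivative_Y, derivative_two_X, ← sq_Y']
      simp only [Nat.cast_add, Nat.cast_one, Nat.add_sub_cancel]
      ring
    have h3 : Y * derivative (Y * derivative (Y ^ (k + 1) : K[X])) =
        C (((k : K) + 1) ^ 2) * Y ^ (k + 1) +
          C (((k : K) + 1) * (4 * ((k : K) + 1) + 2)) * Y ^ (k + 2) := by
      rw [h1, derivative_C_mul, h2]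
      simp only [map_mul, map_add, map_one, map_pow, map_ofNat]
      ring
    rw [h3, h1, derivative_add, derivative_C_mul, derivative_C_mul, derivative_pow,
      derivative_pow, derivative_Y]
    simp only [Nat.cast_add, Nat.cast_one, Nat.add_sub_cancel, map_mul, map_add, map_one,
      map_pow, map_ofNat, map_sub, Nat.cast_ofNat]
    have h4 : k + 2 - 1 = k + 1 := by omega
    rw [h4]
    ring

/-- the coefficients of the Legendre polynomial -/
noncomputable def c (K : Type*) [Field K] (n k : ℕ) : K :=
  (n.choose k : K) * ((n + k).choose k : K)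

theorem c_rec (n k : ℕ) :
    ((k : K) + 1) ^ 2 * c K n (k + 1) = ((n : K) - k) * ((n : K) + k + 1) * c K n k := by
  unfold c
  rcases Nat.lt_or_ge n k with h | h
  · rw [Nat.choose_eq_zero_of_lt h, Nat.choose_eq_zero_of_lt (by omega : n < k + 1)]
    simp
  have h1 : ((n.choose (k + 1) : ℕ) : K) * ((k : K) + 1) = (n.choose k : K) * ((n : K) - k) := by
    have := Nat.choose_succ_right_eq n k
    have h2 : ((n.choose (k + 1) * (k + 1) : ℕ) : K) = ((n.choose k * (n - k) : ℕ) : K) := by
      rw [this]
    push_cast [Nat.cast_sub h] at h2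
    exact h2
  have h3 : ((n : K) + k + 1) * ((n + k).choose k : K) =
      ((n + (k + 1)).choose (k + 1) : K) * ((k : K) + 1) := by
    have := Nat.add_one_mul_choose_eq (n + k) k
    have h2 : (((n + k + 1) * (n + k).choose k : ℕ) : K) =
        (((n + k + 1).choose (k + 1) * (k + 1) : ℕ) : K) := by rw [this]
    push_cast at h2
    exact h2
  calc ((k : K) + 1) ^ 2 * ((n.choose (k + 1) : K) * ((n + (k + 1)).choose (k + 1) : K))
      = ((n.choose (k + 1) : K) * ((k : K) + 1)) *
          (((n + (k + 1)).choose (k + 1) : K) * ((k : K) + 1)) := by ring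
    _ = ((n.choose k : K) * ((n : K) - k)) * (((n : K) + k + 1) * ((n + k).choose k : K)) := by
        rw [h1, h3]
    _ = _ := by ring

/-- the Legendre polynomial in the variable `u = (a - 1) / 2` -/
noncomputable def P (K : Type*) [Field K] (n : ℕ) : K[X] :=
  ∑ k ∈ Finset.range (n + 1), C (c K n k) * X ^ k

theorem coeff_P (n k : ℕ) : (P K n).coeff k = c K n k := by
  unfold P
  rw [finsetSum_coeff]
  simp only [coeff_C_mul, coeff_X_pow, mul_ite, mul_one, mul_zero]
  rw [Finset.sum_ite_eq (Finset.range (n + 1)) k]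
  split_ifs with h
  · rfl
  · have h' : n < k := by simpa using h
    unfold c
    rw [Nat.choose_eq_zero_of_lt h']
    simp

theorem ode_P (n : ℕ) : derivative (Y * derivative (P K n)) =
    C ((n : K) * ((n : K) + 1)) * P K n := by
  ext k
  rw [coeff_derivative, coeff_Y_mul, coeff_C_mul, coeff_P, coeff_P]
  have := c_rec (K := K) n k
  linear_combination this

theorem L_sq (n : ℕ) : L ((n : K) * ((n : K) + 1)) (P K n ^ 2) = 0 := by
  unfold L
  set N : K := (n : K) * ((n : K) + 1) with hN
  set p := P K n with hp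
  have h0 : derivative (Y * derivative p) = C N * p := ode_P n
  have h1 : Y * derivative (p ^ 2) = 2 * (p * (Y * derivative p)) := by
    rw [derivative_sq]
    have : (C 2 : K[X]) = 2 := rfl
    rw [this]; ring
  have d2 : ∀ q : K[X], derivative (2 * q) = 2 * derivative q := by
    intro q
    have : (2 : K[X]) = C 2 := rfl
    rw [this, derivative_C_mul]
  have h2 : derivative (Y * derivative (p ^ 2)) =
      2 * (derivative p * (Y * derivative p) + p * (C N * p)) := by
    rw [h1, d2, derivative_mul, h0]
  have h3 : Y * derivative (Y * derivative (p ^ 2)) =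
      2 * ((Y * derivative p) * (Y * derivative p) + C N * (Y * p ^ 2)) := by
    rw [h2]; ring
  have h5 : derivative (Y * p ^ 2) = (1 + 2 * X) * p ^ 2 + Y * derivative (p ^ 2) := by
    rw [derivative_mul, derivative_Y]
  rw [h3, d2, derivative_add, derivative_mul, h0, derivative_C_mul, h5, derivative_sq]
  simp only [map_mul, map_ofNat]
  ring

/-- the coefficients of the square -/
noncomputable def e (K : Type*) [Field K] (n k : ℕ) : K :=
  ((n + k).choose (2 * k) : K) * ((2 * k).choose k : K) ^ 2

theorem e_rec (n k : ℕ) : ((k : K) + 1) ^ 3 * e K n (k + 1) =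
    2 * (2 * (k : K) + 1) * (((n : K) * ((n : K) + 1)) - (k : K) * ((k : K) + 1)) * e K n k := by
  unfold e
  have h1 : (2 * (k : K) + 2) * (2 * (k : K) + 1) * ((n + (k + 1)).choose (2 * (k + 1)) : K) =
      ((n : K) + k + 1) * ((n : K) - k) * ((n + k).choose (2 * k) : K) := by
    rcases Nat.lt_or_ge n k with h | h
    · rw [Nat.choose_eq_zero_of_lt (by omega : n + (k + 1) < 2 * (k + 1)),
        Nat.choose_eq_zero_of_lt (by omega : n + k < 2 * k)]
      simp
    have a1 := Nat.add_one_mul_choose_eq (n + k) (2 * k + 1)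
    have a2 := Nat.choose_succ_right_eq (n + k) (2 * k)
    have a3 : n + k - 2 * k = n - k := by omega
    rw [a3] at a2
    have b1 : (((n + k + 1) * (n + k).choose (2 * k + 1) : ℕ) : K) =
        (((n + k + 1).choose (2 * k + 1 + 1) * (2 * k + 1 + 1) : ℕ) : K) := by rw [a1]
    have b2 : (((n + k).choose (2 * k + 1) * (2 * k + 1) : ℕ) : K) =
        (((n + k).choose (2 * k) * (n - k) : ℕ) : K) := by rw [a2]
    push_cast [Nat.cast_sub h] at b1 b2
    have e1 : n + (k + 1) = n + k + 1 := by ring
    have e2 : 2 * (k + 1) = 2 * k + 1 + 1 := by ring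
    rw [e1, e2]
    linear_combination (-(2 * (k : K) + 1)) * b1 + ((n : K) + k + 1) * b2
  have h2 : ((k : K) + 1) * ((2 * (k + 1)).choose (k + 1) : K) =
      2 * (2 * (k : K) + 1) * ((2 * k).choose k : K) := by
    have a1 := Nat.succ_mul_centralBinom_succ k
    unfold Nat.centralBinom at a1
    have b1 : (((k + 1) * (2 * (k + 1)).choose (k + 1) : ℕ) : K) =
        ((2 * (2 * k + 1) * (2 * k).choose k : ℕ) : K) := by rw [a1]
    push_cast at b1
    exact b1
  calc ((k : K) + 1) ^ 3 * (((n + (k + 1)).choose (2 * (k + 1)) : K) *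
        ((2 * (k + 1)).choose (k + 1) : K) ^ 2)
      = ((k : K) + 1) * ((n + (k + 1)).choose (2 * (k + 1)) : K) *
          (((k : K) + 1) * ((2 * (k + 1)).choose (k + 1) : K)) ^ 2 := by ring
    _ = 2 * (2 * (k : K) + 1) * ((2 * (k : K) + 2) * (2 * (k : K) + 1) *
          ((n + (k + 1)).choose (2 * (k + 1)) : K)) * ((2 * k).choose k : K) ^ 2 := by
        rw [h2]; ring
    _ = _ := by rw [h1]; ring

theorem L_square_sum (n : ℕ) : L ((n : K) * ((n : K) + 1))
    (∑ k ∈ Finset.range (n + 1), C (e K n k) * Y ^ k) = 0 := by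
  rw [L_sum]
  set b : ℕ → K[X] := fun k => (1 + 2 * X) * (C ((k : K) ^ 3 * e K n k) * Y ^ (k - 1)) with hb
  have h : ∀ k, L ((n : K) * ((n : K) + 1)) (C (e K n k) * Y ^ k) = b k - b (k + 1) := by
    intro k
    rw [L_C_mul, L_pow, hb]
    simp only [Nat.add_sub_cancel, Nat.cast_add, Nat.cast_one]
    rw [e_rec]
    simp only [map_mul, map_add, map_one, map_pow, map_ofNat, map_sub]
    ring
  rw [Finset.sum_congr rfl fun k _ => h k, Finset.sum_range_sub']
  have h1 : b 0 = 0 := by simp [hb]
  have h2 : b (n + 1) = 0 := by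
    have : e K n (n + 1) = 0 := by
      unfold e
      rw [Nat.choose_eq_zero_of_lt (by omega : n + (n + 1) < 2 * (n + 1))]
      simp
    simp [hb, this]
  rw [h1, h2, sub_zero]

theorem P_sq [CharZero K] (n : ℕ) :
    P K n ^ 2 = ∑ k ∈ Finset.range (n + 1), C (e K n k) * Y ^ k := by
  rw [← sub_eq_zero]
  apply eq_zero_of_L ((n : K) * ((n : K) + 1))
  · rw [coeff_sub, sub_eq_zero, coeff_zero_eq_eval_zero, coeff_zero_eq_eval_zero, eval_pow,
      ← coeff_zero_eq_eval_zero, coeff_P, eval_finsetSum]
    simp only [eval_mul, eval_C, eval_pow]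
    rw [Finset.sum_eq_single 0]
    · simp [c, e]
    · intro k _ hk
      simp [Y, hk]
    · simp
  · rw [L_sub, L_sq, L_square_sum, sub_zero]

end B1

open Pool.Agent.DF49E3 in
theorem legSum_sq {K : Type*} [Field K] [CharZero K] (n : ℕ) (a : K) :
    (legSum n a) ^ 2 = ∑ k ∈ Finset.range (n + 1),
      ((n + k).choose (2 * k) : K) * ((2 * k).choose k : K) ^ 2 * ((a ^ 2 - 1) / 4) ^ k := by
  have h := congrArg (Polynomial.eval ((a - 1) / 2)) (B1.P_sq (K := K) n)
  rw [Polynomial.eval_pow, Polynomial.eval_finsetSum, B1.P, Polynomial.eval_finsetSum] at h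
  simp only [Polynomial.eval_mul, Polynomial.eval_C, Polynomial.eval_pow, Polynomial.eval_X,
    B1.c, B1.e] at h
  unfold legSum
  rw [h]
  apply Finset.sum_congr rfl
  intro k _
  congr 2
  unfold B1.Y
  simp only [Polynomial.eval_add, Polynomial.eval_X, Polynomial.eval_pow]
  field_simp
  ring

end Pool.Agent.BC90323
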