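import Pool.Agent.DF49E3.P2

set_option autoImplicit false

/-!
Package B2 of MP_90323e_nt (helper84): the final `p`-adic deduction modulo `p ^ 3`.
-/

namespace Pool.Agent.BC90323

open PowerSeries Pool.Agent.DF49E3

namespace B2

variable {p : ℕ} [Fact p.Prime]

/-- `x ∈ p^k ℤ_p` -/
def OO (p : ℕ) [Fact p.Prime] (k : ℕ) (x : ℚ_[p]) : Prop :=
  ∃ z : ℤ_[p], x = (p : ℚ_[p]) ^ k * (z : ℚ_[p])

theorem OO.add {k : ℕ} {x y : ℚ_[p]} (hx : OO p k x) (hy : OO p k y) : OO p k (x + y) := by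
  obtain ⟨z, rfl⟩ := hx
  obtain ⟨z', rfl⟩ := hy
  exact ⟨z + z', by push_cast; ring⟩

theorem OO.neg {k : ℕ} {x : ℚ_[p]} (hx : OO p k x) : OO p k (-x) := by
  obtain ⟨z, rfl⟩ := hx
  exact ⟨-z, by push_cast; ring⟩

theorem OO.sub {k : ℕ} {x y : ℚ_[p]} (hx : OO p k x) (hy : OO p k y) : OO p k (x - y) := by
  rw [sub_eq_add_neg]
  exact hx.add hy.neg

theorem OO.mul {k l : ℕ} {x y : ℚ_[p]} (hx : OO p k x) (hy : OO p l y) :
    OO p (k + l) (x * y) := by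
  obtain ⟨z, rfl⟩ := hx
  obtain ⟨z', rfl⟩ := hy
  exact ⟨z * z', by push_cast; ring⟩

theorem OO.mono {k l : ℕ} (h : l ≤ k) {x : ℚ_[p]} (hx : OO p k x) : OO p l x := by
  obtain ⟨z, rfl⟩ := hx
  refine ⟨(p : ℤ_[p]) ^ (k - l) * z, ?_⟩
  push_cast
  rw [← mul_assoc, ← pow_add, Nat.add_sub_cancel' h]

theorem OO.zero (k : ℕ) : OO p k 0 := ⟨0, by simp⟩

theorem OO.coe (z : ℤ_[p]) : OO p 0 (z : ℚ_[p]) := ⟨z, by simp⟩

theorem OO.sum {ι : Type*} (s : Finset ι) (f : ι → ℚ_[p]) {k : ℕ}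
    (h : ∀ i ∈ s, OO p k (f i)) : OO p k (∑ i ∈ s, f i) := by
  classical
  induction s using Finset.induction_on with
  | empty => simpa using OO.zero k
  | insert i s hi ih =>
    rw [Finset.sum_insert hi]
    exact (h i (Finset.mem_insert_self _ _)).add
      (ih fun j hj => h j (Finset.mem_insert_of_mem hj))

theorem OO_of_norm {k : ℕ} {x : ℚ_[p]} (h : ‖x‖ ≤ ((p : ℝ)⁻¹) ^ k) : OO p k x := by
  have hp0 : (0 : ℝ) < p := by exact_mod_cast (Fact.out : p.Prime).pos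
  have hpq : (p : ℚ_[p]) ≠ 0 := by exact_mod_cast (Fact.out : p.Prime).ne_zero
  have hy : ‖x / (p : ℚ_[p]) ^ k‖ ≤ 1 := by
    rw [norm_div, norm_pow, Padic.norm_p, div_le_one (by positivity)]
    exact h
  refine ⟨⟨x / (p : ℚ_[p]) ^ k, hy⟩, ?_⟩
  simp only
  field_simp

theorem OO.norm {k : ℕ} {x : ℚ_[p]} (h : OO p k x) : ‖x‖ ≤ ((p : ℝ)⁻¹) ^ k := by
  obtain ⟨z, rfl⟩ := h
  rw [norm_mul, norm_pow, Padic.norm_p]
  have h1 : ‖(z : ℚ_[p])‖ ≤ 1 := z.2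
  have h2 : (0 : ℝ) ≤ ((p : ℝ)⁻¹) ^ k := by positivity
  nlinarith

theorem OO_of_dvd {k : ℕ} {x : ℤ_[p]} (h : (p : ℤ_[p]) ^ k ∣ x) : OO p k (x : ℚ_[p]) := by
  obtain ⟨y, rfl⟩ := h
  exact ⟨y, by push_cast; ring⟩

theorem coe_two : (((2 : ℤ_[p]) : ℤ_[p]) : ℚ_[p]) = 2 := PadicInt.coe_natCast 2

theorem sum_range_two_mul' {M : Type*} [AddCommMonoid M] (g : ℕ → M) (m : ℕ) :
    ∑ k ∈ Finset.range (2 * m), g k = ∑ i ∈ Finset.range m, (g (2 * i) + g (2 * i + 1)) := by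
  induction m with
  | zero => simp
  | succ m ih =>
    rw [Finset.sum_range_succ, ← ih, show 2 * (m + 1) = 2 * m + 1 + 1 by ring,
      Finset.sum_range_succ, Finset.sum_range_succ, add_assoc]

/-- division by a unit natural number -/
theorem OO_inv_natCast {j : ℕ} (h1 : 1 ≤ j) (h2 : j < p) : OO p 0 ((j : ℚ_[p])⁻¹) := by
  apply OO_of_norm
  rw [pow_zero, norm_inv]
  have h3 : ¬ (p : ℤ_[p]) ∣ (j : ℤ_[p]) := P2.not_dvd_natCast h1 h2
  rw [← PadicInt.norm_lt_one_iff_dvd] at h3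
  have h4 : ‖(j : ℤ_[p])‖ = 1 := le_antisymm (PadicInt.norm_le_one _) (not_lt.1 h3)
  have h5 : ‖(j : ℚ_[p])‖ = 1 := by
    rw [← h4, PadicInt.norm_def, PadicInt.coe_natCast]
  rw [h5, inv_one]

theorem dvd_coeff_cube {R : ℤ_[p]⟦X⟧} (h0 : constantCoeff R = 0)
    (hR : ∀ i < p, (p : ℤ_[p]) ∣ coeff i R) (j : ℕ) (hj : j ≤ p) :
    (p : ℤ_[p]) ^ 3 ∣ coeff j (R ^ 3) := by
  rw [show R ^ 3 = R ^ 2 * R by ring, coeff_mul]
  apply Finset.dvd_sum
  intro x hx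
  rw [Finset.HasAntidiagonal.mem_antidiagonal] at hx
  rcases Nat.eq_zero_or_pos x.1 with h | h
  · rw [h, coeff_zero_eq_constantCoeff_apply, map_pow, h0]
    simp
  · rcases Nat.eq_zero_or_pos x.2 with h' | h'
    · rw [h', coeff_zero_eq_constantCoeff_apply, h0, mul_zero]
      exact dvd_zero _
    · rw [show (p : ℤ_[p]) ^ 3 = (p : ℤ_[p]) ^ 2 * p by ring]
      exact mul_dvd_mul (P2.dvd_coeff_sq h0 hR _ (by omega)) (hR _ (by omega))

theorem natCast_isUnit {j : ℕ} (h1 : 1 ≤ j) (h2 : j < p) : IsUnit (j : ℤ_[p]) := by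
  by_contra hcon
  have h3 : ¬ (p : ℤ_[p]) ∣ (j : ℤ_[p]) := P2.not_dvd_natCast h1 h2
  apply h3
  rw [← PadicInt.norm_lt_one_iff_dvd]
  rw [← PadicInt.not_isUnit_iff]
  exact_mod_cast hcon

/-- The refined `p`-adic heart. -/
theorem coeff_eq3 {a α : ℤ_[p]} {w G R S : ℤ_[p]⟦X⟧} (n : ℕ) (hn : p = 2 * n + 1) (hp5 : 5 ≤ p)
    (hb : Base a w) (hwG : w * G = 1) (hG1 : coeff 1 G = 0) (hsol : Sol a w α R S)
    (hα : (p : ℤ_[p]) ∣ α) :
    (∀ i < p, (p : ℤ_[p]) ∣ coeff i R) ∧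
    (∀ m ≤ 2 * n, ∃ z : ℤ_[p],
      α * coeff m G = ((m : ℤ_[p]) + 1) * coeff (m + 1) R + (p : ℤ_[p]) ^ 3 * z) ∧
      ∃ z : ℤ_[p], α * coeff (2 * n) G = p * coeff p R + (p : ℤ_[p]) ^ 4 * z := by
  have hR' : derivative ℤ_[p] R = C α * (S * G) := by
    calc derivative ℤ_[p] R = (w * G) * derivative ℤ_[p] R := by rw [hwG, one_mul]
      _ = G * (w * derivative ℤ_[p] R) := by ring
      _ = C α * (S * G) := by rw [hsol.ode]; ring
  have hdR := P2.dvd_coeff_R hα hsol.R0 hR'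
  refine ⟨hdR, ?_⟩
  obtain ⟨φ, hX, hφ⟩ := P2.comp_eq hb hwG hsol
  have hC : ∀ r : ℤ_[p], φ (C r) = C r := fun r => φ.commutes r
  have hG0 : coeff 0 G = 1 := by
    have := congrArg constantCoeff hwG
    rw [map_mul, hb.w0, one_mul, map_one] at this
    rw [coeff_zero_eq_constantCoeff_apply, this]
  have hd : (X : ℤ_[p]⟦X⟧) ^ 3 ∣ G - (1 + C (coeff 2 G) * X ^ 2) := by
    rw [X_pow_dvd_iff]
    intro m hm
    have e2 : ∀ m, coeff m (C (coeff 2 G) * X ^ 2 : ℤ_[p]⟦X⟧) = if m = 2 then coeff 2 G else 0 := by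
      intro m
      rw [coeff_C_mul, coeff_X_pow]
      split_ifs <;> simp
    rw [map_sub, map_add, e2, coeff_one]
    interval_cases m
    · simp [hG0]
    · simp [hG1]
    · simp
  obtain ⟨G3, hG3⟩ := hd
  have eG : G = 1 + C (coeff 2 G) * X ^ 2 + X ^ 3 * G3 := by rw [← hG3]; ring
  have hφG : φ G = 1 + C (coeff 2 G) * R ^ 2 + R ^ 3 * φ G3 := by
    conv_lhs => rw [eG]
    simp only [map_add, map_one, map_mul, map_pow, hX, hC]
  have hmain : ∀ m : ℕ, ((m : ℤ_[p]) + 1) * coeff (m + 1) R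
      + coeff 2 G * coeff m (derivative ℤ_[p] R * R ^ 2)
      + coeff m (derivative ℤ_[p] R * (R ^ 3 * φ G3)) = α * coeff m G := by
    intro m
    have h1 := congrArg (coeff m) hφ
    rw [coeff_C_mul, hφG, mul_add, mul_add, mul_one, map_add, map_add, coeff_derivative] at h1
    rw [← h1]
    have : derivative ℤ_[p] R * (C (coeff 2 G) * R ^ 2)
        = C (coeff 2 G) * (derivative ℤ_[p] R * R ^ 2) := by ring
    rw [this, coeff_C_mul]
    ring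
  -- the general estimates
  have tA : ∀ m ≤ p, (p : ℤ_[p]) ^ 3 ∣ coeff m (derivative ℤ_[p] R * R ^ 2) := by
    intro m hm
    have e : derivative ℤ_[p] R * R ^ 2 = R ^ 2 * (C α * (S * G)) := by
      rw [hR']; ring
    rw [e, coeff_mul]
    apply Finset.dvd_sum
    intro x hx
    rw [Finset.HasAntidiagonal.mem_antidiagonal] at hx
    rw [coeff_C_mul, show (3 : ℕ) = 2 + 1 from rfl, pow_succ]
    exact mul_dvd_mul (P2.dvd_coeff_sq hsol.R0 hdR _ (by omega)) (Dvd.dvd.mul_right hα _)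
  have tB : ∀ m ≤ p, (p : ℤ_[p]) ^ 4 ∣ coeff m (derivative ℤ_[p] R * (R ^ 3 * φ G3)) := by
    intro m hm
    have e : derivative ℤ_[p] R * (R ^ 3 * φ G3) = R ^ 3 * (C α * (S * G * φ G3)) := by
      rw [hR']; ring
    rw [e, coeff_mul]
    apply Finset.dvd_sum
    intro x hx
    rw [Finset.HasAntidiagonal.mem_antidiagonal] at hx
    rw [coeff_C_mul, show (4 : ℕ) = 3 + 1 from rfl, pow_succ]
    exact mul_dvd_mul (dvd_coeff_cube hsol.R0 hdR _ (by omega)) (Dvd.dvd.mul_right hα _)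
  have e4 : (((2 * n : ℕ) : ℤ_[p]) + 1) = p := by
    have := congrArg (fun m : ℕ => (m : ℤ_[p])) hn
    simp only [Nat.cast_add, Nat.cast_one] at this
    exact this.symm
  constructor
  · intro m hm
    obtain ⟨z1, hz1⟩ := tA m (by omega)
    obtain ⟨z2, hz2⟩ := tB m (by omega)
    refine ⟨coeff 2 G * z1 + p * z2, ?_⟩
    rw [← hmain m, hz1, hz2]
    ring
  · -- coefficient `2 n`
    have t3 : (p : ℤ_[p]) ^ 4 ∣ coeff (2 * n) (derivative ℤ_[p] R * R ^ 2) := by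
      have e2 : derivative ℤ_[p] (R ^ 3) = 3 * (derivative ℤ_[p] R * R ^ 2) := by
        rw [show R ^ 3 = R * (R * R) by ring, Derivation.leibniz, Derivation.leibniz]
        simp only [smul_eq_mul]
        ring
      have e3 := congrArg (coeff (2 * n)) e2
      rw [coeff_derivative, show (3 : ℤ_[p]⟦X⟧) = C 3 from (map_ofNat C 3).symm,
        coeff_C_mul] at e3
      rw [e4, ← hn] at e3
      have e5 : (p : ℤ_[p]) ^ 4 ∣ 3 * coeff (2 * n) (derivative ℤ_[p] R * R ^ 2) := by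
        rw [← e3, show (4 : ℕ) = 3 + 1 from rfl, pow_succ]
        exact mul_dvd_mul (dvd_coeff_cube hsol.R0 hdR _ le_rfl) dvd_rfl
      have hu : IsUnit (3 : ℤ_[p]) := by
        have := natCast_isUnit (p := p) (j := 3) (by norm_num) (by omega)
        exact_mod_cast this
      exact (hu.dvd_mul_left).1 e5
    obtain ⟨z1, hz1⟩ := t3
    obtain ⟨z2, hz2⟩ := tB (2 * n) (by omega)
    refine ⟨coeff 2 G * z1 + z2, ?_⟩
    have h := hmain (2 * n)
    rw [hz1, hz2, e4, ← hn] at h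
    rw [← h]
    ring

end B2

/-- B2 (refinement of P2.final_congr of DF49E3 to modulus `p ^ 3`) -/
theorem final_congr3 {p : ℕ} [Fact p.Prime] (n : ℕ) (hn : p = 2 * n + 1) (hp5 : 5 ≤ p)
    (a α β : ℤ_[p]) (w G R S : ℤ_[p]⟦X⟧) (hb : Base a w) (hwG : w * G = 1)
    (hG : ∀ m : ℕ, ((coeff (2 * m) G : ℤ_[p]) : ℚ_[p]) = legSum m (a : ℚ_[p]))
    (hGodd : ∀ m : ℕ, coeff (2 * m + 1) G = 0)
    (hsol : Sol a w α R S) (hαβ : α * β = (p : ℤ_[p])) (hβ : IsUnit β)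
    (D : Polynomial ℚ_[p]) (hdeg : D.natDegree ≤ n) (hD0 : D.coeff 0 = 1) (ρ : ℚ_[p])
    (hρ : ρ ^ 2 = 1)
    (hR : Polynomial.aeval ((X : ℚ_[p]⟦X⟧) ^ 2) D * PowerSeries.map (algebraMap ℤ_[p] ℚ_[p]) R =
      X * (C ρ * Polynomial.aeval ((X : ℚ_[p]⟦X⟧) ^ 2) (D.reflect n))) :
    ∃ z : ℤ_[p], legSum n (a : ℚ_[p]) ^ 2 + (p : ℚ_[p]) ^ 2 / 2 *
        ∑ i ∈ Finset.range n, legSum (n - 1 - i) (a : ℚ_[p]) ^ 2 / ((i : ℚ_[p]) + 1) ^ 2 -
      (β : ℚ_[p]) ^ 2 = (p : ℚ_[p]) ^ 3 * (z : ℚ_[p]) := by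
  have hp0 : (0 : ℝ) < p := by exact_mod_cast (Fact.out : p.Prime).pos
  have hp1 : (1 : ℝ) < p := by exact_mod_cast (Fact.out : p.Prime).one_lt
  have hpz : (p : ℤ_[p]) ≠ 0 := by exact_mod_cast (Fact.out : p.Prime).ne_zero
  have hpq : (p : ℚ_[p]) ≠ 0 := by exact_mod_cast (Fact.out : p.Prime).ne_zero
  have hα : (p : ℤ_[p]) ∣ α := by
    obtain ⟨u, hu⟩ := hβ
    refine ⟨(u⁻¹ : ℤ_[p]ˣ), ?_⟩
    rw [← hαβ, ← hu, mul_assoc, Units.mul_inv, mul_one]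
  have hαO : B2.OO p 1 (α : ℚ_[p]) := B2.OO_of_dvd (by rw [pow_one]; exact hα)
  obtain ⟨hdR, hmid, z, hz⟩ := B2.coeff_eq3 n hn hp5 hb hwG (hGodd 0) hsol hα
  -- `G_{2n} = β R_p + p³ β z`
  have hmain : coeff (2 * n) G = β * coeff p R + (p : ℤ_[p]) ^ 3 * (β * z) := by
    apply mul_left_cancel₀ hpz
    calc (p : ℤ_[p]) * coeff (2 * n) G = β * (α * coeff (2 * n) G) := by rw [← hαβ]; ring
      _ = β * (p * coeff p R + (p : ℤ_[p]) ^ 4 * z) := by rw [hz]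
      _ = _ := by ring
  -- norms of the coefficients of `R`
  have hRc : ∀ i, coeff i (PowerSeries.map (algebraMap ℤ_[p] ℚ_[p]) R) =
      ((coeff i R : ℤ_[p]) : ℚ_[p]) := by
    intro i
    rw [coeff_map]
    rfl
  have hRO : ∀ i < p, B2.OO p 1 ((coeff i R : ℤ_[p]) : ℚ_[p]) := by
    intro i hi
    exact B2.OO_of_dvd (by rw [pow_one]; exact hdR i hi)
  have hRn : ∀ i < p, ‖coeff i (PowerSeries.map (algebraMap ℤ_[p] ℚ_[p]) R)‖ ≤ (p : ℝ)⁻¹ := by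
    intro i hi
    rw [hRc]
    exact P2.norm_le_of_dvd (hdR i hi)
  have hρn : ‖ρ‖ = 1 := by
    have : ‖ρ‖ ^ 2 = 1 := by rw [← norm_pow, hρ, norm_one]
    nlinarith [norm_nonneg ρ]
  have hρO : B2.OO p 0 ρ := B2.OO_of_norm (by rw [pow_zero, hρn])
  -- coefficient comparison
  have hcoef : ∀ j ≤ n, ρ * D.coeff (n - j) =
      ∑ x ∈ Finset.HasAntidiagonal.antidiagonal (2 * j + 1),
        coeff x.1 (Polynomial.aeval ((X : ℚ_[p]⟦X⟧) ^ 2) D) *
        coeff x.2 (PowerSeries.map (algebraMap ℤ_[p] ℚ_[p]) R) := by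
    intro j hj
    have h1 := congrArg (coeff (2 * j + 1)) hR
    rw [coeff_mul, mul_comm X, coeff_succ_mul_X, coeff_C_mul, P2.coeff_aeval_sq,
      if_pos (Dvd.intro _ rfl), Nat.mul_div_cancel_left _ (by norm_num : 0 < 2),
      Polynomial.coeff_reflect, Polynomial.revAt_le hj] at h1
    exact h1.symm
  obtain ⟨i0, hi0, hmax⟩ := Finset.exists_max_image (Finset.range (n + 1))
    (fun i => ‖D.coeff i‖) ⟨0, Finset.mem_range.2 (by omega)⟩
  set M : ℝ := ‖D.coeff i0‖ with hM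
  have hM1 : 1 ≤ M := by
    have := hmax 0 (Finset.mem_range.2 (by omega))
    rw [hD0, norm_one] at this
    exact this
  have hDle : ∀ i, ‖D.coeff i‖ ≤ M := by
    intro i
    by_cases hi : i ≤ n
    · exact hmax i (Finset.mem_range.2 (by omega))
    · rw [Polynomial.coeff_eq_zero_of_natDegree_lt (by omega), norm_zero]
      linarith
  have hAle : ∀ i, ‖coeff i (Polynomial.aeval ((X : ℚ_[p]⟦X⟧) ^ 2) D)‖ ≤ M := by
    intro i
    rw [P2.coeff_aeval_sq]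
    split_ifs
    · exact hDle _
    · rw [norm_zero]; linarith
  have hDsmall : ∀ i, 1 ≤ i → ‖D.coeff i‖ ≤ (p : ℝ)⁻¹ * M := by
    intro i hi
    by_cases hin : i ≤ n
    · have h1 := hcoef (n - i) (by omega)
      rw [Nat.sub_sub_self hin] at h1
      have h2 : ‖ρ * D.coeff i‖ = ‖D.coeff i‖ := by rw [norm_mul, hρn, one_mul]
      rw [← h2, h1]
      apply P2.norm_sum_le
      · positivity
      · intro x hx
        rw [Finset.HasAntidiagonal.mem_antidiagonal] at hx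
        rw [norm_mul, mul_comm]
        exact mul_le_mul (hRn _ (by omega)) (hAle _) (norm_nonneg _) (by positivity)
    · rw [Polynomial.coeff_eq_zero_of_natDegree_lt (by omega), norm_zero]
      positivity
  have hpinv : (p : ℝ)⁻¹ < 1 := inv_lt_one_of_one_lt₀ hp1
  have hM2 : M = 1 := by
    rcases Nat.eq_zero_or_pos i0 with h | h
    · rw [hM, h, hD0, norm_one]
    · exfalso
      have := hDsmall i0 h
      rw [← hM] at this
      nlinarith
  have hDO : ∀ i, 1 ≤ i → B2.OO p 1 (D.coeff i) := by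
    intro i hi
    apply B2.OO_of_norm
    have := hDsmall i hi
    rwa [hM2, mul_one, ← pow_one (p : ℝ)⁻¹] at this
  have hAO : ∀ i, 1 ≤ i → B2.OO p 1 (coeff i (Polynomial.aeval ((X : ℚ_[p]⟦X⟧) ^ 2) D)) := by
    intro i hi
    rw [P2.coeff_aeval_sq]
    split_ifs with h
    · exact hDO _ (by omega)
    · exact B2.OO.zero 1
  have hA0 : coeff 0 (Polynomial.aeval ((X : ℚ_[p]⟦X⟧) ^ 2) D) = 1 := by
    rw [P2.coeff_aeval_sq, if_pos (dvd_zero 2), Nat.zero_div, hD0]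
  -- splitting off the first term
  have hsplit : ∀ j ≤ n, ρ * D.coeff (n - j) - ((coeff (2 * j + 1) R : ℤ_[p]) : ℚ_[p]) =
      ∑ x ∈ (Finset.HasAntidiagonal.antidiagonal (2 * j + 1)).erase (0, 2 * j + 1),
        coeff x.1 (Polynomial.aeval ((X : ℚ_[p]⟦X⟧) ^ 2) D) *
        coeff x.2 (PowerSeries.map (algebraMap ℤ_[p] ℚ_[p]) R) := by
    intro j hj
    have hmem : ((0, 2 * j + 1) : ℕ × ℕ) ∈
        Finset.HasAntidiagonal.antidiagonal (2 * j + 1) := by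
      rw [Finset.HasAntidiagonal.mem_antidiagonal]
      simp
    rw [hcoef j hj, ← Finset.add_sum_erase _ _ hmem, hA0, one_mul, hRc, add_sub_cancel_left]
  -- `R_{p - 2 i} = ρ D_i + O(p²)`
  have hlow : ∀ i, 1 ≤ i → i ≤ n →
      B2.OO p 2 (ρ * D.coeff i - ((coeff (2 * (n - i) + 1) R : ℤ_[p]) : ℚ_[p])) := by
    intro i hi hin
    have h1 := hsplit (n - i) (by omega)
    rw [Nat.sub_sub_self hin] at h1
    rw [h1]
    apply B2.OO.sum
    intro x hx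
    rw [Finset.mem_erase, Finset.HasAntidiagonal.mem_antidiagonal] at hx
    have h1 : 1 ≤ x.1 := by
      by_contra hcon
      apply hx.1
      have h0 : x.1 = 0 := by omega
      exact Prod.ext h0 (by simp only; omega)
    have h2 := (hAO _ h1).mul (hRO x.2 (by omega))
    rw [hRc]
    exact h2
  -- relation with the Legendre values
  have hrel : ∀ i, 1 ≤ i → i ≤ n →
      B2.OO p 3 (D.coeff i ^ 2 - (α : ℚ_[p]) ^ 2 * legSum (n - i) (a : ℚ_[p]) ^ 2 /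
        (4 * (i : ℚ_[p]) ^ 2)) := by
    intro i hi hin
    obtain ⟨z1, hz1⟩ := hmid (2 * (n - i)) (by omega)
    obtain ⟨z2, hz2⟩ := hlow i hi hin
    obtain ⟨d, hd⟩ := hDO i hi
    obtain ⟨α', hα'⟩ := hαO
    have e1 : (((2 * (n - i) : ℕ) : ℤ_[p]) + 1) = p - 2 * (i : ℤ_[p]) := by
      have := congrArg (fun m : ℕ => (m : ℤ_[p])) hn
      simp only [Nat.cast_add, Nat.cast_one] at this
      rw [this]
      push_cast [Nat.cast_sub hin]
      ring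
    rw [e1] at hz1
    have hz1' : ((α * coeff (2 * (n - i)) G : ℤ_[p]) : ℚ_[p]) =
        ((((p : ℤ_[p]) - 2 * (i : ℤ_[p])) * coeff (2 * (n - i) + 1) R +
          (p : ℤ_[p]) ^ 3 * z1 : ℤ_[p]) : ℚ_[p]) := by rw [hz1]
    push_cast at hz1'
    rw [hG (n - i), B2.coe_two] at hz1'
    -- key: α P = -2 i ρ D_i + p² ...
    have key : (α : ℚ_[p]) * legSum (n - i) (a : ℚ_[p]) + 2 * i * (ρ * D.coeff i) =
        (p : ℚ_[p]) ^ 2 * ((2 * i * z2 + (ρ * d) - p * z2 + p * z1 : ℚ_[p])) := by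
      have h3 : ((coeff (2 * (n - i) + 1) R : ℤ_[p]) : ℚ_[p]) =
          ρ * D.coeff i - (p : ℚ_[p]) ^ 2 * z2 := by
        rw [← hz2]; ring
      rw [hz1', h3, hd]
      ring
    have hi0 : (i : ℚ_[p]) ≠ 0 := by
      exact_mod_cast (show i ≠ 0 by omega)
    have hO2 : B2.OO p 2 ((α : ℚ_[p]) * legSum (n - i) (a : ℚ_[p]) +
        2 * i * (ρ * D.coeff i)) := by
      rw [key]
      have h4 : B2.OO p 0 ((2 * i * z2 + (ρ * d) - p * z2 + p * z1 : ℚ_[p])) := by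
        have hρd : B2.OO p 0 (ρ * (d : ℚ_[p])) := hρO.mul (B2.OO.coe d)
        have hrest : B2.OO p 0 ((2 * i * z2 - p * z2 + p * z1 : ℚ_[p])) := by
          have := B2.OO.coe (2 * (i : ℤ_[p]) * z2 - (p : ℤ_[p]) * z2 + (p : ℤ_[p]) * z1)
          push_cast at this
          rw [B2.coe_two] at this
          exact this
        have := hρd.add hrest
        have e : (2 * i * z2 + (ρ * d) - p * z2 + p * z1 : ℚ_[p]) =
            ρ * (d : ℚ_[p]) + (2 * i * z2 - p * z2 + p * z1) := by ring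
        rw [e]
        exact this
      obtain ⟨z4, hz4⟩ := h4
      exact ⟨z4, by rw [hz4]; ring⟩
    -- product with the difference
    have hPO : B2.OO p 0 (legSum (n - i) (a : ℚ_[p])) := by
      rw [← hG (n - i)]
      exact B2.OO.coe _
    have hO1 : B2.OO p 1 (2 * i * (ρ * D.coeff i) - (α : ℚ_[p]) * legSum (n - i) (a : ℚ_[p])) := by
      apply B2.OO.sub
      · have h5 : B2.OO p 0 ((2 : ℚ_[p]) * i) := by
          have := B2.OO.coe (2 * (i : ℤ_[p]))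
          push_cast at this
          rw [B2.coe_two] at this
          exact this
        have := h5.mul (hρO.mul (hDO i hi))
        exact this
      · have := (show B2.OO p 1 (α : ℚ_[p]) from ⟨α', hα'⟩).mul hPO
        exact this
    have hO3 := hO2.mul hO1
    have h2i : (2 : ℚ_[p]) ≠ 0 := two_ne_zero
    have hfac : D.coeff i ^ 2 - (α : ℚ_[p]) ^ 2 * legSum (n - i) (a : ℚ_[p]) ^ 2 /
        (4 * (i : ℚ_[p]) ^ 2) =
        (((α : ℚ_[p]) * legSum (n - i) (a : ℚ_[p]) + 2 * i * (ρ * D.coeff i)) *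
        (2 * i * (ρ * D.coeff i) - (α : ℚ_[p]) * legSum (n - i) (a : ℚ_[p]))) *
        (((2 * i : ℕ) : ℚ_[p])⁻¹ * ((2 * i : ℕ) : ℚ_[p])⁻¹) := by
      have hρ2 : ρ * ρ = 1 := by rw [← pow_two, hρ]
      push_cast
      field_simp
      linear_combination (-(D.coeff i ^ 2 * (i : ℚ_[p]) ^ 2 * 16)) * hρ
    rw [hfac]
    have hinv : B2.OO p 0 (((2 * i : ℕ) : ℚ_[p])⁻¹ * ((2 * i : ℕ) : ℚ_[p])⁻¹) :=
      (B2.OO_inv_natCast (by omega) (by omega)).mul (B2.OO_inv_natCast (by omega) (by omega))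
    exact hO3.mul hinv
  -- coefficient `p`
  have hfull : ρ = ∑ i ∈ Finset.range n, D.coeff (i + 1) *
      ((coeff (2 * (n - (i + 1)) + 1) R : ℤ_[p]) : ℚ_[p]) + ((coeff p R : ℤ_[p]) : ℚ_[p]) := by
    have h1 := hcoef n le_rfl
    rw [Nat.sub_self, hD0, mul_one, Finset.Nat.sum_antidiagonal_eq_sum_range_succ_mk] at h1
    simp only at h1
    rw [Nat.succ_eq_add_one, show 2 * n + 1 + 1 = 2 * (n + 1) by ring,
      B2.sum_range_two_mul'] at h1
    have h2 : ∀ i ∈ Finset.range (n + 1),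
        (coeff (2 * i) (Polynomial.aeval ((X : ℚ_[p]⟦X⟧) ^ 2) D) *
          coeff (2 * n + 1 - 2 * i) (PowerSeries.map (algebraMap ℤ_[p] ℚ_[p]) R) +
        coeff (2 * i + 1) (Polynomial.aeval ((X : ℚ_[p]⟦X⟧) ^ 2) D) *
          coeff (2 * n + 1 - (2 * i + 1)) (PowerSeries.map (algebraMap ℤ_[p] ℚ_[p]) R)) =
        D.coeff i * ((coeff (2 * (n - i) + 1) R : ℤ_[p]) : ℚ_[p]) := by
      intro i hi
      rw [Finset.mem_range] at hi
      rw [P2.coeff_aeval_sq, P2.coeff_aeval_sq, if_pos (Dvd.intro _ rfl),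
        Nat.mul_div_cancel_left _ (by norm_num : 0 < 2), if_neg (by omega), zero_mul, add_zero,
        hRc, show 2 * n + 1 - 2 * i = 2 * (n - i) + 1 by omega]
    rw [Finset.sum_congr rfl h2, Finset.sum_range_succ', hD0, one_mul, Nat.sub_zero, ← hn] at h1
    exact h1
  have htop : B2.OO p 3 (((coeff p R : ℤ_[p]) : ℚ_[p]) -
      ρ * (1 - ∑ i ∈ Finset.range n, D.coeff (i + 1) ^ 2)) := by
    have e : ((coeff p R : ℤ_[p]) : ℚ_[p]) -
        ρ * (1 - ∑ i ∈ Finset.range n, D.coeff (i + 1) ^ 2) =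
        ∑ i ∈ Finset.range n, D.coeff (i + 1) * (ρ * D.coeff (i + 1) -
          ((coeff (2 * (n - (i + 1)) + 1) R : ℤ_[p]) : ℚ_[p])) := by
      have h3 : ∑ i ∈ Finset.range n, D.coeff (i + 1) * (ρ * D.coeff (i + 1) -
          ((coeff (2 * (n - (i + 1)) + 1) R : ℤ_[p]) : ℚ_[p])) =
          ρ * ∑ i ∈ Finset.range n, D.coeff (i + 1) ^ 2 -
          ∑ i ∈ Finset.range n, D.coeff (i + 1) *
            ((coeff (2 * (n - (i + 1)) + 1) R : ℤ_[p]) : ℚ_[p]) := by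
        rw [Finset.mul_sum, ← Finset.sum_sub_distrib]
        exact Finset.sum_congr rfl fun i _ => by ring
      rw [h3]
      linear_combination (-1 : ℚ_[p]) * hfull
    rw [e]
    apply B2.OO.sum
    intro i hi
    rw [Finset.mem_range] at hi
    exact (hDO (i + 1) (by omega)).mul (hlow (i + 1) (by omega) (by omega))
  -- the sum of the squares
  set sg : ℚ_[p] := ∑ i ∈ Finset.range n, D.coeff (i + 1) ^ 2 with hsg
  have hsgO : B2.OO p 2 sg := by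
    apply B2.OO.sum
    intro i _
    rw [pow_two]
    exact (hDO (i + 1) (by omega)).mul (hDO (i + 1) (by omega))
  have hβO : B2.OO p 0 (β : ℚ_[p]) := B2.OO.coe β
  have hRpO : B2.OO p 0 ((coeff p R : ℤ_[p]) : ℚ_[p]) := B2.OO.coe _
  have hPn : legSum n (a : ℚ_[p]) = (β : ℚ_[p]) * ((coeff p R : ℤ_[p]) : ℚ_[p]) +
      (p : ℚ_[p]) ^ 3 * ((β : ℚ_[p]) * (z : ℚ_[p])) := by
    rw [← hG n, hmain]
    push_cast
    ring
  have hPO : B2.OO p 0 (legSum n (a : ℚ_[p])) := by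
    rw [← hG n]
    exact B2.OO.coe _
  have o1 : B2.OO p 3 (legSum n (a : ℚ_[p]) ^ 2 -
      (β : ℚ_[p]) ^ 2 * ((coeff p R : ℤ_[p]) : ℚ_[p]) ^ 2) := by
    have h1 : B2.OO p 3 (legSum n (a : ℚ_[p]) -
        (β : ℚ_[p]) * ((coeff p R : ℤ_[p]) : ℚ_[p])) :=
      ⟨β * z, by rw [hPn]; push_cast; ring⟩
    have h2 : B2.OO p 0 (legSum n (a : ℚ_[p]) +
        (β : ℚ_[p]) * ((coeff p R : ℤ_[p]) : ℚ_[p])) := hPO.add (hβO.mul hRpO)
    have := h1.mul h2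
    have e : legSum n (a : ℚ_[p]) ^ 2 -
        (β : ℚ_[p]) ^ 2 * ((coeff p R : ℤ_[p]) : ℚ_[p]) ^ 2 =
        (legSum n (a : ℚ_[p]) - (β : ℚ_[p]) * ((coeff p R : ℤ_[p]) : ℚ_[p])) *
        (legSum n (a : ℚ_[p]) + (β : ℚ_[p]) * ((coeff p R : ℤ_[p]) : ℚ_[p])) := by ring
    rw [e]
    exact this
  have one_O : B2.OO p 0 (1 : ℚ_[p]) := ⟨1, by simp⟩
  have o2 : B2.OO p 3 ((β : ℚ_[p]) ^ 2 * ((coeff p R : ℤ_[p]) : ℚ_[p]) ^ 2 -
      (β : ℚ_[p]) ^ 2 * (1 - sg) ^ 2) := by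
    have h2 : B2.OO p 0 (((coeff p R : ℤ_[p]) : ℚ_[p]) + ρ * (1 - sg)) :=
      hRpO.add (hρO.mul (one_O.sub (hsgO.mono (by omega))))
    have h3 := (hβO.mul hβO).mul (htop.mul h2)
    have e : (β : ℚ_[p]) ^ 2 * ((coeff p R : ℤ_[p]) : ℚ_[p]) ^ 2 -
        (β : ℚ_[p]) ^ 2 * (1 - sg) ^ 2 =
        ((β : ℚ_[p]) * (β : ℚ_[p])) * ((((coeff p R : ℤ_[p]) : ℚ_[p]) - ρ * (1 - sg)) *
          (((coeff p R : ℤ_[p]) : ℚ_[p]) + ρ * (1 - sg))) := by
      linear_combination (β : ℚ_[p]) ^ 2 * (1 - sg) ^ 2 * hρ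
    rw [e]
    simpa using h3
  have o3 : B2.OO p 3 ((β : ℚ_[p]) ^ 2 * sg ^ 2) := by
    have := ((hβO.mul hβO).mul (hsgO.mul hsgO)).mono (l := 3) (by omega)
    have e : (β : ℚ_[p]) ^ 2 * sg ^ 2 = ((β : ℚ_[p]) * (β : ℚ_[p])) * (sg * sg) := by ring
    rw [e]
    exact this
  have o4 : B2.OO p 3 (2 * (β : ℚ_[p]) ^ 2 * sg - (p : ℚ_[p]) ^ 2 / 2 *
      ∑ i ∈ Finset.range n, legSum (n - 1 - i) (a : ℚ_[p]) ^ 2 / ((i : ℚ_[p]) + 1) ^ 2) := by
    have hαβ' : (α : ℚ_[p]) * (β : ℚ_[p]) = (p : ℚ_[p]) := by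
      have : ((α * β : ℤ_[p]) : ℚ_[p]) = ((p : ℤ_[p]) : ℚ_[p]) := by rw [hαβ]
      rw [PadicInt.coe_mul, PadicInt.coe_natCast] at this
      exact this
    have e : 2 * (β : ℚ_[p]) ^ 2 * sg - (p : ℚ_[p]) ^ 2 / 2 *
        ∑ i ∈ Finset.range n, legSum (n - 1 - i) (a : ℚ_[p]) ^ 2 / ((i : ℚ_[p]) + 1) ^ 2 =
        ∑ i ∈ Finset.range n, (2 * (β : ℚ_[p]) ^ 2) * (D.coeff (i + 1) ^ 2 -
          (α : ℚ_[p]) ^ 2 * legSum (n - (i + 1)) (a : ℚ_[p]) ^ 2 /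
          (4 * ((i + 1 : ℕ) : ℚ_[p]) ^ 2)) := by
      rw [hsg, Finset.mul_sum, Finset.mul_sum, ← Finset.sum_sub_distrib]
      apply Finset.sum_congr rfl
      intro i hi
      have hi0 : ((i : ℚ_[p]) + 1) ≠ 0 := by
        exact_mod_cast (show i + 1 ≠ 0 by omega)
      rw [show n - 1 - i = n - (i + 1) by omega, ← hαβ']
      push_cast
      field_simp
      ring
    rw [e]
    apply B2.OO.sum
    intro i hi
    rw [Finset.mem_range] at hi
    have h2 : B2.OO p 0 (2 * (β : ℚ_[p]) ^ 2) := by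
      have := B2.OO.coe (2 * β ^ 2)
      rw [PadicInt.coe_mul, B2.coe_two, PadicInt.coe_pow] at this
      exact this
    have := h2.mul (hrel (i + 1) (by omega) (by omega))
    simpa using this
  have hfin := ((o1.add o2).add o3).sub o4
  obtain ⟨y, hy⟩ := hfin
  refine ⟨y, ?_⟩
  rw [← hy]
  ring

end Pool.Agent.BC90323
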