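import Pool.Agent.BC90323.B1

set_option autoImplicit false

/-!
Package B3 of MP_90323e_nt (helper73): the congruence for `∑ C(2k,k)³ z^k` modulo `p³`.
-/

namespace Pool.Agent.BC90323

open Pool.Agent.DF49E3

namespace B3

/-- `Q_k = ∏_{j<k} (T - (2j+1)²)` -/
noncomputable def Q (k : ℕ) : Polynomial ℤ :=
  ∏ j ∈ Finset.range k, (Polynomial.X - Polynomial.C ((2 * (j : ℤ) + 1) ^ 2))

lemma Q_succ_eval (k : ℕ) (t : ℤ) :
    (Q (k + 1)).eval t = (Q k).eval t * (t - (2 * (k : ℤ) + 1) ^ 2) := by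
  unfold Q
  rw [Finset.prod_range_succ, Polynomial.eval_mul]
  simp

lemma Q_natDegree (k : ℕ) : (Q k).natDegree ≤ k := by
  unfold Q
  refine (Polynomial.natDegree_prod_le _ _).trans ?_
  refine (Finset.sum_le_card_nsmul _ _ 1 (fun j _ => ?_)).trans (by simp)
  exact Polynomial.natDegree_X_sub_C_le _

lemma choose_Q (m k : ℕ) : ((m + k).choose (2 * k) : ℤ) * 4 ^ k * (2 * k).factorial
    = (Q k).eval ((2 * (m : ℤ) + 1) ^ 2) := by
  induction k with
  | zero => simp [Q]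
  | succ k ih =>
    rw [Q_succ_eval, ← ih]
    have h1 := Nat.add_one_mul_choose_eq (m + k) (2 * k + 1)
    have h2 := Nat.choose_succ_right_eq (m + k) (2 * k)
    have h3 : ((2 * (k + 1)).factorial : ℤ)
        = (2 * (k : ℤ) + 2) * ((2 * (k : ℤ) + 1) * (2 * k).factorial) := by
      rw [show 2 * (k + 1) = (2 * k + 1) + 1 by ring, Nat.factorial_succ, Nat.factorial_succ]
      push_cast
      ring
    have h1' : (((m + k : ℕ) : ℤ) + 1) * ((m + k).choose (2 * k + 1) : ℤ)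
        = ((m + (k + 1)).choose (2 * (k + 1)) : ℤ) * (2 * (k : ℤ) + 2) := by
      have : ((m + k + 1 : ℕ) : ℤ) * ((m + k).choose (2 * k + 1) : ℤ)
        = ((m + k + 1).choose (2 * k + 1 + 1) : ℤ) * ((2 * k + 1 + 1 : ℕ) : ℤ) := by
        exact_mod_cast h1
      rw [show m + (k + 1) = m + k + 1 by ring, show 2 * (k + 1) = 2 * k + 1 + 1 by ring]
      push_cast at this ⊢
      linear_combination this
    have h2' : ((m + k).choose (2 * k + 1) : ℤ) * (2 * (k : ℤ) + 1)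
        = ((m + k).choose (2 * k) : ℤ) * ((m : ℤ) - k) := by
      rcases Nat.lt_or_ge m k with hmk | hmk
      · rw [Nat.choose_eq_zero_of_lt (show m + k < 2 * k + 1 by omega),
          Nat.choose_eq_zero_of_lt (show m + k < 2 * k by omega)]
        simp
      · have : ((m + k).choose (2 * k + 1) : ℤ) * ((2 * k + 1 : ℕ) : ℤ)
          = ((m + k).choose (2 * k) : ℤ) * ((m + k - 2 * k : ℕ) : ℤ) := by exact_mod_cast h2
        rw [Nat.cast_sub (by omega)] at this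
        push_cast at this
        linear_combination this
    rw [h3, pow_succ]
    push_cast at h1' ⊢
    have e1 : ((m + (k + 1)).choose (2 * (k + 1)) : ℤ) * (4 ^ k * 4)
        * ((2 * (k : ℤ) + 2) * ((2 * (k : ℤ) + 1) * (2 * k).factorial))
        = 4 ^ k * 4 * (2 * k).factorial * (2 * (k : ℤ) + 1)
          * (((m + (k + 1)).choose (2 * (k + 1)) : ℤ) * (2 * (k : ℤ) + 2)) := by ring
    rw [e1, ← h1']
    have e2 : 4 ^ k * 4 * ((2 * k).factorial : ℤ) * (2 * (k : ℤ) + 1)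
        * (((m : ℤ) + k + 1) * ((m + k).choose (2 * k + 1) : ℤ))
        = 4 ^ k * 4 * ((2 * k).factorial : ℤ) * ((m : ℤ) + k + 1)
          * (((m + k).choose (2 * k + 1) : ℤ) * (2 * (k : ℤ) + 1)) := by ring
    rw [e2, h2']
    ring

lemma central_Q (k : ℕ) : ((2 * k).choose k : ℤ) * (2 * k).factorial
    = (-4) ^ k * (Q k).eval 0 := by
  induction k with
  | zero => simp [Q]
  | succ k ih =>
    have h1 := Nat.succ_mul_centralBinom_succ k
    rw [Nat.centralBinom_eq_two_mul_choose, Nat.centralBinom_eq_two_mul_choose] at h1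
    have h1' : ((k : ℤ) + 1) * ((2 * (k + 1)).choose (k + 1) : ℤ)
        = 2 * (2 * (k : ℤ) + 1) * ((2 * k).choose k : ℤ) := by exact_mod_cast h1
    have h3 : ((2 * (k + 1)).factorial : ℤ)
        = (2 * (k : ℤ) + 2) * ((2 * (k : ℤ) + 1) * (2 * k).factorial) := by
      rw [show 2 * (k + 1) = (2 * k + 1) + 1 by ring, Nat.factorial_succ, Nat.factorial_succ]
      push_cast
      ring
    rw [Q_succ_eval, h3, pow_succ]
    have e1 : ((2 * (k + 1)).choose (k + 1) : ℤ)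
        * ((2 * (k : ℤ) + 2) * ((2 * (k : ℤ) + 1) * (2 * k).factorial))
        = 2 * (2 * (k : ℤ) + 1) * (2 * k).factorial
          * (((k : ℤ) + 1) * ((2 * (k + 1)).choose (k + 1) : ℤ)) := by ring
    rw [e1, h1']
    have e2 : 2 * (2 * (k : ℤ) + 1) * ((2 * k).factorial : ℤ)
        * (2 * (2 * (k : ℤ) + 1) * ((2 * k).choose k : ℤ))
        = 4 * (2 * (k : ℤ) + 1) ^ 2 * (((2 * k).choose k : ℤ) * (2 * k).factorial) := by ring
    rw [e2, ih]
    ring

/-- Taylor expansion with remainder -/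
lemma taylor2 (P : Polynomial ℤ) (t : ℤ) :
    ∃ r : ℤ, P.eval t = P.eval 0 + P.coeff 1 * t + t ^ 2 * r := by
  refine ⟨P.divX.divX.eval t, ?_⟩
  have h1 := congrArg (Polynomial.eval t) (Polynomial.divX_mul_X_add P)
  have h2 := congrArg (Polynomial.eval t) (Polynomial.divX_mul_X_add P.divX)
  simp only [Polynomial.eval_add, Polynomial.eval_mul, Polynomial.eval_X, Polynomial.eval_C,
    Polynomial.coeff_divX] at h1 h2
  rw [← Polynomial.coeff_zero_eq_eval_zero, ← h1, ← h2]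
  ring

section ModP

variable {p : ℕ} [hp : Fact p.Prime]

lemma sum_even (n : ℕ) (hn : p = 2 * n + 1) (f : ZMod p → ZMod p) (h0 : f 0 = 0)
    (hf : ∀ u, f (-u) = f u) :
    ∑ u, f u = 2 * ∑ i ∈ Finset.range n, f ((i : ZMod p) + 1) := by
  have h1 : ∑ u, f u = ∑ j ∈ Finset.range p, f (j : ZMod p) := by
    subst hn
    rw [← Fin.sum_univ_eq_sum_range (fun j => f (j : ZMod (2 * n + 1)))]
    exact Finset.sum_congr rfl (fun i _ => by
      congr 1
      exact (ZMod.natCast_zmod_val i).symm)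
  have hr : Finset.range p = Finset.range (n + n + 1) := by
    congr 1
    omega
  rw [h1, hr, Finset.sum_range_succ', Finset.sum_range_add, Nat.cast_zero, h0, add_zero]
  have h2 : ∑ x ∈ Finset.range n, f ((n + x + 1 : ℕ) : ZMod p)
      = ∑ i ∈ Finset.range n, f ((i : ZMod p) + 1) := by
    rw [← Finset.sum_range_reflect]
    refine Finset.sum_congr rfl (fun i hi => ?_)
    rw [← hf]
    congr 1
    have hi' := Finset.mem_range.1 hi
    have e : (((n + (n - 1 - i) + 1 : ℕ) : ZMod p)) + ((i : ZMod p) + 1) = 0 := by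
      have : ((n + (n - 1 - i) + 1 + (i + 1) : ℕ) : ZMod p) = 0 := by
        rw [show n + (n - 1 - i) + 1 + (i + 1) = p by omega]
        exact ZMod.natCast_self p
      push_cast at this ⊢
      exact this
    exact (neg_eq_of_add_eq_zero_right e)
  rw [h2]
  push_cast
  ring

lemma sum_pow (i : ℕ) (hi : i ≠ 0) :
    ∑ u : ZMod p, u ^ i = if (p - 1) ∣ i then -1 else 0 := by
  classical
  have h1 := FiniteField.sum_pow_units (ZMod p) i
  rw [ZMod.card] at h1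
  rw [← h1]
  let φ : (ZMod p)ˣ ↪ ZMod p := ⟨fun x ↦ x, Units.val_injective⟩
  have : Finset.univ.map φ = Finset.univ \ {0} := by
    ext x
    simpa only [Finset.mem_map, Finset.mem_univ, Function.Embedding.coeFn_mk, true_and,
      Finset.mem_sdiff, Finset.mem_singleton, φ] using! isUnit_iff_ne_zero
  calc
    ∑ x : ZMod p, x ^ i = ∑ x ∈ Finset.univ \ {(0 : ZMod p)}, x ^ i := by
      rw [← Finset.sum_sdiff ({0} : Finset (ZMod p)).subset_univ, Finset.sum_singleton,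
        zero_pow hi, add_zero]
    _ = ∑ x : (ZMod p)ˣ, (x ^ i : ZMod p) := by simp [φ, ← this, Finset.univ.sum_map φ]

/-- the power sum identity modulo `p` -/
lemma sum_Q (n : ℕ) (hn : p = 2 * n + 1) (hp5 : 5 ≤ p) (k : ℕ) (hk : k ≤ n) :
    ∑ i ∈ Finset.range n, (((Q k).eval ((2 * ((i : ℤ) + 1)) ^ 2) : ℤ) : ZMod p)
        * ((((i : ZMod p) + 1) ^ 2)⁻¹) = -2 * ((Q k).coeff 1 : ZMod p) := by
  set q : Polynomial (ZMod p) := (Q k).map (Int.castRingHom (ZMod p)) with hq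
  have hqc : ∀ j, q.coeff j = ((Q k).coeff j : ZMod p) := fun j => by
    rw [hq, Polynomial.coeff_map]; rfl
  have hqd : q.natDegree < n + 2 := by
    have h1 : q.natDegree ≤ (Q k).natDegree := Polynomial.natDegree_map_le
    have h2 := Q_natDegree k
    omega
  set f : ZMod p → ZMod p := fun u => q.eval (4 * u ^ 2) * u ^ (2 * n - 2) with hf
  have h20 : (2 : ZMod p) ≠ 0 := by
    intro h
    have h1 : ((2 : ℕ) : ZMod p) = 0 := by exact_mod_cast h
    rw [ZMod.natCast_eq_zero_iff] at h1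
    have := Nat.le_of_dvd (by norm_num) h1
    omega
  have hs := sum_even n hn f (by
      simp [hf, zero_pow (show 2 * n - 2 ≠ 0 by omega)]) (fun u => by
      simp only [hf]
      rw [neg_sq, Even.neg_pow (by
        refine ⟨n - 1, by omega⟩)])
  have hs2 : ∑ u, f u = -4 * ((Q k).coeff 1 : ZMod p) := by
    have h1 : ∀ u, f u = ∑ l ∈ Finset.range (n + 2), (q.coeff l * 4 ^ l) * u ^ (2 * l + (2 * n - 2)) := by
      intro u
      simp only [hf]
      rw [Polynomial.eval_eq_sum_range' hqd, Finset.sum_mul]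
      refine Finset.sum_congr rfl (fun l _ => ?_)
      rw [mul_pow, ← pow_mul, pow_add]
      ring
    simp only [h1]
    rw [Finset.sum_comm]
    simp only [← Finset.mul_sum]
    rw [Finset.sum_eq_single 1]
    · rw [sum_pow _ (by omega), if_pos ⟨1, by omega⟩, hqc]
      ring
    · intro l hl hl1
      by_cases hlk : l ≤ k
      · rw [sum_pow _ (by omega), if_neg ?_, mul_zero]
        rintro ⟨c, hc⟩
        have hp1 : p - 1 = 2 * n := by omega
        rw [hp1] at hc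
        rcases c with _ | _ | c
        · omega
        · omega
        · have : 2 * n * (c + 1 + 1) = 2 * n * c + 4 * n := by ring
          rw [this] at hc
          have : 0 ≤ 2 * n * c := Nat.zero_le _
          omega
      · rw [hqc, Polynomial.coeff_eq_zero_of_natDegree_lt (by
          have := Q_natDegree k; omega)]
        simp
    · intro h
      exact absurd (Finset.mem_range.2 (by omega)) h
  have hs3 : ∑ i ∈ Finset.range n, (((Q k).eval ((2 * ((i : ℤ) + 1)) ^ 2) : ℤ) : ZMod p)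
        * ((((i : ZMod p) + 1) ^ 2)⁻¹) = ∑ i ∈ Finset.range n, f ((i : ZMod p) + 1) := by
    refine Finset.sum_congr rfl (fun i hi => ?_)
    have hi' := Finset.mem_range.1 hi
    have hne : ((i : ZMod p) + 1) ≠ 0 := by
      intro h
      have h1 : ((i + 1 : ℕ) : ZMod p) = 0 := by exact_mod_cast h
      rw [ZMod.natCast_eq_zero_iff] at h1
      have := Nat.le_of_dvd (by omega) h1
      omega
    simp only [hf]
    have e1 : (((Q k).eval ((2 * ((i : ℤ) + 1)) ^ 2) : ℤ) : ZMod p)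
        = q.eval (4 * ((i : ZMod p) + 1) ^ 2) := by
      have := Polynomial.eval_intCast_map (Int.castRingHom (ZMod p)) (Q k)
        ((2 * ((i : ℤ) + 1)) ^ 2)
      rw [← hq] at this
      have e : ((((2 * ((i : ℤ) + 1)) ^ 2 : ℤ)) : ZMod p) = 4 * ((i : ZMod p) + 1) ^ 2 := by
        push_cast
        ring
      rw [e] at this
      rw [this]
      rfl
    rw [e1]
    congr 1
    refine inv_eq_of_mul_eq_one_right ?_
    rw [← pow_add, show 2 + (2 * n - 2) = p - 1 by omega]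
    exact ZMod.pow_card_sub_one_eq_one hne
  rw [hs3]
  have h4 : (2 : ZMod p) * ∑ i ∈ Finset.range n, f ((i : ZMod p) + 1)
      = 2 * (-2 * ((Q k).coeff 1 : ZMod p)) := by
    rw [← hs, hs2]
    ring
  exact mul_left_cancel₀ h20 h4

/-- `x ∈ p^j ℤ_p` -/
def M (p : ℕ) [Fact p.Prime] (j : ℕ) (x : ℚ_[p]) : Prop :=
  ∃ z : ℤ_[p], x = (p : ℚ_[p]) ^ j * (z : ℚ_[p])

lemma M.add {j : ℕ} {x y : ℚ_[p]} (hx : M p j x) (hy : M p j y) : M p j (x + y) := by
  obtain ⟨a, rfl⟩ := hx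
  obtain ⟨b, rfl⟩ := hy
  exact ⟨a + b, by push_cast; ring⟩

lemma M.neg {j : ℕ} {x : ℚ_[p]} (hx : M p j x) : M p j (-x) := by
  obtain ⟨a, rfl⟩ := hx
  exact ⟨-a, by push_cast; ring⟩

lemma M.zero (j : ℕ) : M p j 0 := ⟨0, by simp⟩

lemma M.mul {i j : ℕ} {x y : ℚ_[p]} (hx : M p i x) (hy : M p j y) : M p (i + j) (x * y) := by
  obtain ⟨a, rfl⟩ := hx
  obtain ⟨b, rfl⟩ := hy
  exact ⟨a * b, by push_cast; ring⟩

lemma M.coe (z : ℤ_[p]) : M p 0 (z : ℚ_[p]) := ⟨z, by simp⟩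

lemma M.natCast (m : ℕ) : M p 0 (m : ℚ_[p]) := ⟨m, by simp⟩

lemma M.intCast (m : ℤ) : M p 0 (m : ℚ_[p]) := ⟨m, by simp⟩

lemma M.mono {i j : ℕ} (h : i ≤ j) {x : ℚ_[p]} (hx : M p j x) : M p i x := by
  obtain ⟨a, rfl⟩ := hx
  refine ⟨(p : ℤ_[p]) ^ (j - i) * a, ?_⟩
  push_cast
  rw [← mul_assoc, ← pow_add, Nat.add_sub_cancel' h]

lemma M.sum {ι : Type*} {j : ℕ} (s : Finset ι) (f : ι → ℚ_[p]) (h : ∀ i ∈ s, M p j (f i)) :
    M p j (∑ i ∈ s, f i) := by
  classical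
  induction s using Finset.induction_on with
  | empty => simpa using M.zero j
  | insert a s ha ih =>
    rw [Finset.sum_insert ha]
    exact (h a (Finset.mem_insert_self a s)).add
      (ih (fun i hi => h i (Finset.mem_insert_of_mem hi)))

lemma M.pow {j : ℕ} {x : ℚ_[p]} (hx : M p j x) (e : ℕ) : M p (j * e) (x ^ e) := by
  obtain ⟨a, rfl⟩ := hx
  exact ⟨a ^ e, by push_cast; rw [mul_pow, ← pow_mul]⟩

lemma not_dvd {j : ℕ} (h1 : 1 ≤ j) (h2 : j < p) : ¬ (p : ℤ_[p]) ∣ (j : ℤ_[p]) := by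
  intro h
  have h3 : ‖((j : ℤ) : ℤ_[p])‖ < 1 := by
    rw [PadicInt.norm_lt_one_iff_dvd]
    exact_mod_cast h
  rw [PadicInt.norm_int_lt_one_iff_dvd] at h3
  have h4 : p ∣ j := by exact_mod_cast h3
  exact absurd (Nat.le_of_dvd (by omega) h4) (by omega)

lemma isUnit_nat {m : ℕ} (h : ¬ p ∣ m) : IsUnit (m : ℤ_[p]) := by
  rw [PadicInt.isUnit_iff]
  refine le_antisymm (PadicInt.norm_le_one _) ?_
  rw [← not_lt, PadicInt.norm_lt_one_iff_dvd]
  intro h'
  have h3 : ‖((m : ℤ) : ℤ_[p])‖ < 1 := by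
    rw [PadicInt.norm_lt_one_iff_dvd]
    exact_mod_cast h'
  rw [PadicInt.norm_int_lt_one_iff_dvd] at h3
  exact h (by exact_mod_cast h3)

lemma M.div_nat {j m : ℕ} (h : ¬ p ∣ m) {x : ℚ_[p]} (hx : M p j ((m : ℚ_[p]) * x)) :
    M p j x := by
  obtain ⟨u, hu⟩ := isUnit_nat h
  obtain ⟨a, ha⟩ := hx
  refine ⟨((u⁻¹ : ℤ_[p]ˣ) : ℤ_[p]) * a, ?_⟩
  have h1 : (((u⁻¹ : ℤ_[p]ˣ) : ℤ_[p]) : ℚ_[p]) * (m : ℚ_[p]) = 1 := by
    have : ((u⁻¹ : ℤ_[p]ˣ) : ℤ_[p]) * (m : ℤ_[p]) = 1 := by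
      rw [← hu]; exact u.inv_mul
    exact_mod_cast congrArg (fun z : ℤ_[p] => (z : ℚ_[p])) this
  calc x = (((u⁻¹ : ℤ_[p]ˣ) : ℤ_[p]) : ℚ_[p]) * ((m : ℚ_[p]) * x) := by
        rw [← mul_assoc, h1, one_mul]
    _ = _ := by rw [ha]; push_cast; ring

lemma coe_two : (((2 : ℤ_[p])) : ℚ_[p]) = 2 := by
  have := PadicInt.coe_natCast (p := p) 2
  exact_mod_cast this

/-- `2 q₁ + Σ Q(4(i+1)²)/(i+1)²` is divisible by `p` in `ℤ_p` -/
lemma dvd_E (n : ℕ) (hn : p = 2 * n + 1) (hp5 : 5 ≤ p) (k : ℕ) (hk : k ≤ n) :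
    M p 1 (2 * ((Q k).coeff 1 : ℚ_[p]) + ∑ i ∈ Finset.range n,
      (((Q k).eval ((2 * ((n - 1 - i : ℕ) : ℤ) + 1) ^ 2) : ℤ) : ℚ_[p])
        / ((i : ℚ_[p]) + 1) ^ 2) := by
  have hu : ∀ i : ℕ, ∃ v : ℤ_[p], i < n → v * ((i : ℤ_[p]) + 1) = 1 := by
    intro i
    by_cases hi : i < n
    · have hnd : ¬ p ∣ (i + 1) := fun h => by
        have := Nat.le_of_dvd (by omega) h
        omega
      obtain ⟨u, hu⟩ := isUnit_nat hnd
      refine ⟨((u⁻¹ : ℤ_[p]ˣ) : ℤ_[p]), fun _ => ?_⟩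
      have : ((u⁻¹ : ℤ_[p]ˣ) : ℤ_[p]) * ((i + 1 : ℕ) : ℤ_[p]) = 1 := by
        rw [← hu]; exact u.inv_mul
      exact_mod_cast this
    · exact ⟨0, fun h => absurd h hi⟩
  choose v hv using hu
  set E : ℤ_[p] := 2 * ((Q k).coeff 1 : ℤ_[p]) + ∑ i ∈ Finset.range n,
      (((Q k).eval ((2 * ((n - 1 - i : ℕ) : ℤ) + 1) ^ 2) : ℤ) : ℤ_[p]) * v i ^ 2 with hE
  have h1 : PadicInt.toZMod E = 0 := by
    rw [hE]
    simp only [map_add, map_mul, map_ofNat, map_intCast, map_sum, map_pow]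
    have h2 : ∑ i ∈ Finset.range n,
        (((Q k).eval ((2 * ((n - 1 - i : ℕ) : ℤ) + 1) ^ 2) : ℤ) : ZMod p)
          * (PadicInt.toZMod (v i)) ^ 2
        = ∑ i ∈ Finset.range n, (((Q k).eval ((2 * ((i : ℤ) + 1)) ^ 2) : ℤ) : ZMod p)
        * ((((i : ZMod p) + 1) ^ 2)⁻¹) := by
      refine Finset.sum_congr rfl (fun i hi => ?_)
      have hi' := Finset.mem_range.1 hi
      have h3 := congrArg PadicInt.toZMod (hv i hi')
      rw [map_mul, map_add, map_natCast, map_one] at h3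
      congr 1
      · have e := fun (x : ℤ) => Polynomial.eval_intCast_map (Int.castRingHom (ZMod p)) (Q k) x
        have e1 := e ((2 * ((n - 1 - i : ℕ) : ℤ) + 1) ^ 2)
        have e2 := e ((2 * ((i : ℤ) + 1)) ^ 2)
        have e3 : (((2 * ((n - 1 - i : ℕ) : ℤ) + 1) ^ 2 : ℤ) : ZMod p)
            = (((2 * ((i : ℤ) + 1)) ^ 2 : ℤ) : ZMod p) := by
          have h5 : ((2 * ((n - 1 - i : ℕ) : ℤ) + 1 : ℤ) : ZMod p)
              = -((2 * ((i : ℤ) + 1) : ℤ) : ZMod p) := by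
            rw [eq_neg_iff_add_eq_zero, ← Int.cast_add]
            have : (2 * ((n - 1 - i : ℕ) : ℤ) + 1 + 2 * ((i : ℤ) + 1)) = (p : ℤ) := by
              rw [hn]; push_cast; omega
            rw [this]
            simp
          rw [Int.cast_pow, h5, neg_sq, Int.cast_pow]
        rw [e3] at e1
        exact e1.symm.trans e2
      · refine eq_inv_of_mul_eq_one_left ?_
        rw [← mul_pow, h3, one_pow]
    rw [h2, sum_Q n hn hp5 k hk]
    ring
  have h2 : (p : ℤ_[p]) ∣ E := by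
    have h3 : E ∈ RingHom.ker (PadicInt.toZMod (p := p)) := h1
    rw [PadicInt.ker_toZMod, PadicInt.maximalIdeal_eq_span_p, Ideal.mem_span_singleton] at h3
    exact h3
  obtain ⟨z, hz⟩ := h2
  refine ⟨z, ?_⟩
  have h3 := congrArg (fun z : ℤ_[p] => (z : ℚ_[p])) hz
  simp only [PadicInt.coe_mul, PadicInt.coe_natCast] at h3
  rw [pow_one, ← h3, hE, PadicInt.coe_add, PadicInt.coe_mul, coe_two, PadicInt.coe_sum,
    PadicInt.coe_intCast]
  congr 1
  refine Finset.sum_congr rfl (fun i hi => ?_)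
  rw [PadicInt.coe_mul, PadicInt.coe_intCast, PadicInt.coe_pow]
  have h4 := congrArg (fun z : ℤ_[p] => (z : ℚ_[p])) (hv i (Finset.mem_range.1 hi))
  simp only [PadicInt.coe_mul, PadicInt.coe_natCast, PadicInt.coe_add, PadicInt.coe_one] at h4
  have hne : ((i : ℚ_[p]) + 1) ≠ 0 := by
    intro h0
    rw [h0, mul_zero] at h4
    exact zero_ne_one h4
  rw [div_eq_mul_inv]
  congr 1
  rw [← inv_pow]
  congr 1
  exact (eq_inv_of_mul_eq_one_left h4).symm

/-- the core congruence, for each `k ≤ n` -/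
lemma core (n : ℕ) (hn : p = 2 * n + 1) (hp5 : 5 ≤ p) (k : ℕ) (hk : k ≤ n) :
    M p 3 (((2 * k).choose k : ℚ_[p]) / (-16) ^ k - ((n + k).choose (2 * k) : ℚ_[p])
      - (p : ℚ_[p]) ^ 2 / 2 * ∑ i ∈ Finset.range n,
        ((n - 1 - i + k).choose (2 * k) : ℚ_[p]) / ((i : ℚ_[p]) + 1) ^ 2) := by
  have hp2 : ¬ p ∣ 2 := fun h => by
    have := Nat.le_of_dvd (by norm_num) h
    omega
  have hp4k : ¬ p ∣ 4 ^ k := fun h => by
    have h1 := hp.out.dvd_of_dvd_pow h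
    have := Nat.le_of_dvd (by norm_num) h1
    omega
  have hpf : ¬ p ∣ (2 * k).factorial := fun h => by
    rw [hp.out.dvd_factorial] at h
    omega
  refine M.div_nat hp4k (M.div_nat hpf (M.div_nat hp2 ?_))
  obtain ⟨r, hr⟩ := taylor2 (Q k) ((p : ℤ) ^ 2)
  have hE := dvd_E n hn hp5 k hk
  set T := ∑ i ∈ Finset.range n,
      (((Q k).eval ((2 * ((n - 1 - i : ℕ) : ℤ) + 1) ^ 2) : ℤ) : ℚ_[p])
        / ((i : ℚ_[p]) + 1) ^ 2 with hT
  have c1 : ((n + k).choose (2 * k) : ℚ_[p]) * 4 ^ k * (2 * k).factorial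
      = (((Q k).eval ((p : ℤ) ^ 2) : ℤ) : ℚ_[p]) := by
    have h := choose_Q n k
    rw [show (2 * (n : ℤ) + 1) = (p : ℤ) by rw [hn]; push_cast; ring] at h
    exact_mod_cast congrArg (fun z : ℤ => (z : ℚ_[p])) h
  have c2 : ((2 * k).choose k : ℚ_[p]) / (-16) ^ k * 4 ^ k * (2 * k).factorial
      = (((Q k).eval 0 : ℤ) : ℚ_[p]) := by
    have h := central_Q k
    have h' : ((2 * k).choose k : ℚ_[p]) * (2 * k).factorial
        = (-4) ^ k * (((Q k).eval 0 : ℤ) : ℚ_[p]) := by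
      exact_mod_cast congrArg (fun z : ℤ => (z : ℚ_[p])) h
    have h16 : ((-16 : ℚ_[p])) ^ k = (-4) ^ k * 4 ^ k := by
      rw [← mul_pow]; norm_num
    have h4 : ((-4 : ℚ_[p])) ^ k ≠ 0 := pow_ne_zero _ (by norm_num)
    have h4' : ((4 : ℚ_[p])) ^ k ≠ 0 := pow_ne_zero _ (by norm_num)
    rw [h16]
    field_simp
    linear_combination h'
  have c3 : (∑ i ∈ Finset.range n,
        ((n - 1 - i + k).choose (2 * k) : ℚ_[p]) / ((i : ℚ_[p]) + 1) ^ 2) * 4 ^ k
        * (2 * k).factorial = T := by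
    rw [Finset.sum_mul, Finset.sum_mul, hT]
    refine Finset.sum_congr rfl (fun i _ => ?_)
    have h := choose_Q (n - 1 - i) k
    have h' : ((n - 1 - i + k).choose (2 * k) : ℚ_[p]) * 4 ^ k * (2 * k).factorial
        = (((Q k).eval ((2 * ((n - 1 - i : ℕ) : ℤ) + 1) ^ 2) : ℤ) : ℚ_[p]) := by
      exact_mod_cast congrArg (fun z : ℤ => (z : ℚ_[p])) h
    rw [← h']
    ring
  have c4 : (((Q k).eval ((p : ℤ) ^ 2) : ℤ) : ℚ_[p])
      = (((Q k).eval 0 : ℤ) : ℚ_[p]) + ((Q k).coeff 1 : ℚ_[p]) * (p : ℚ_[p]) ^ 2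
        + ((p : ℚ_[p]) ^ 2) ^ 2 * (r : ℚ_[p]) := by
    exact_mod_cast congrArg (fun z : ℤ => (z : ℚ_[p])) hr
  have key : ((2 : ℕ) : ℚ_[p]) * (((2 * k).factorial : ℚ_[p]) * (((4 ^ k : ℕ) : ℚ_[p]) *
      (((2 * k).choose k : ℚ_[p]) / (-16) ^ k - ((n + k).choose (2 * k) : ℚ_[p])
      - (p : ℚ_[p]) ^ 2 / 2 * ∑ i ∈ Finset.range n,
        ((n - 1 - i + k).choose (2 * k) : ℚ_[p]) / ((i : ℚ_[p]) + 1) ^ 2)))
      = (p : ℚ_[p]) ^ 3 * (-2 * (p : ℚ_[p]) * (r : ℚ_[p]))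
        + -((p : ℚ_[p]) ^ 2 * (2 * ((Q k).coeff 1 : ℚ_[p]) + T)) := by
    push_cast
    linear_combination 2 * c2 - 2 * c1 - (p : ℚ_[p]) ^ 2 * c3 - 2 * c4
  have key' : M p 3 (((2 : ℕ) : ℚ_[p]) * (((2 * k).factorial : ℚ_[p]) * (((4 ^ k : ℕ) : ℚ_[p]) *
      (((2 * k).choose k : ℚ_[p]) / (-16) ^ k - ((n + k).choose (2 * k) : ℚ_[p])
      - (p : ℚ_[p]) ^ 2 / 2 * ∑ i ∈ Finset.range n,
        ((n - 1 - i + k).choose (2 * k) : ℚ_[p]) / ((i : ℚ_[p]) + 1) ^ 2)))) := by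
    rw [key]
    refine M.add ⟨((-2 * p * r : ℤ) : ℤ_[p]), by
      rw [PadicInt.coe_intCast]; push_cast; ring⟩ (M.neg ?_)
    obtain ⟨z, hz⟩ := hE
    rw [hz]
    exact ⟨z, by ring⟩
  exact key'

end ModP

end B3

open B3 in
/-- B3 -/
theorem cube_congr {p : ℕ} [Fact p.Prime] (n : ℕ) (hn : p = 2 * n + 1) (hp5 : 5 ≤ p)
    (a : ℤ_[p]) :
    ∃ z : ℤ_[p], ∑ k ∈ Finset.range p,
        ((2 * k).choose k : ℚ_[p]) ^ 3 * ((1 - (a : ℚ_[p]) ^ 2) / 64) ^ k -
      (legSum n (a : ℚ_[p]) ^ 2 + (p : ℚ_[p]) ^ 2 / 2 *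
        ∑ i ∈ Finset.range n, legSum (n - 1 - i) (a : ℚ_[p]) ^ 2 / ((i : ℚ_[p]) + 1) ^ 2) =
      (p : ℚ_[p]) ^ 3 * (z : ℚ_[p]) := by
  have hp := (inferInstance : Fact p.Prime)
  have hp2 : ¬ p ∣ 2 := fun h => by
    have := Nat.le_of_dvd (by norm_num) h
    omega
  set y : ℚ_[p] := ((a : ℚ_[p]) ^ 2 - 1) / 4 with hy
  have hyM : M p 0 y := by
    refine M.div_nat hp2 (M.div_nat hp2 ⟨a ^ 2 - 1, ?_⟩)
    rw [hy]
    push_cast
    ring
  -- the squares of the Legendre values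
  have hL : ∀ m, m ≤ n → legSum m (a : ℚ_[p]) ^ 2 = ∑ k ∈ Finset.range (n + 1),
      ((m + k).choose (2 * k) : ℚ_[p]) * (((2 * k).choose k : ℚ_[p]) ^ 2 * y ^ k) := by
    intro m hm
    rw [legSum_sq]
    have h1 := Finset.sum_range_add_sum_Ico (fun k => ((m + k).choose (2 * k) : ℚ_[p])
      * (((2 * k).choose k : ℚ_[p]) ^ 2 * y ^ k)) (show m + 1 ≤ n + 1 by omega)
    rw [← h1]
    have h2 : ∑ k ∈ Finset.Ico (m + 1) (n + 1), ((m + k).choose (2 * k) : ℚ_[p])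
      * (((2 * k).choose k : ℚ_[p]) ^ 2 * y ^ k) = 0 := by
      refine Finset.sum_eq_zero (fun k hk => ?_)
      have := Finset.mem_Ico.1 hk
      rw [Nat.choose_eq_zero_of_lt (by omega)]
      simp
    rw [h2, add_zero]
    refine Finset.sum_congr rfl (fun k _ => ?_)
    ring
  have hz : (1 - (a : ℚ_[p]) ^ 2) / 64 = y / (-16) := by rw [hy]; ring
  -- the big sum
  have hF : ∑ k ∈ Finset.range p, ((2 * k).choose k : ℚ_[p]) ^ 3 * ((1 - (a : ℚ_[p]) ^ 2) / 64) ^ k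
      = ∑ k ∈ Finset.range (n + 1), (((2 * k).choose k : ℚ_[p]) / (-16) ^ k)
          * (((2 * k).choose k : ℚ_[p]) ^ 2 * y ^ k)
        + ∑ k ∈ Finset.Ico (n + 1) p, ((2 * k).choose k : ℚ_[p]) ^ 3
          * ((1 - (a : ℚ_[p]) ^ 2) / 64) ^ k := by
    rw [← Finset.sum_range_add_sum_Ico _ (show n + 1 ≤ p by omega)]
    congr 1
    refine Finset.sum_congr rfl (fun k _ => ?_)
    rw [hz, div_pow]
    ring
  have hT : M p 3 (∑ k ∈ Finset.Ico (n + 1) p, ((2 * k).choose k : ℚ_[p]) ^ 3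
          * ((1 - (a : ℚ_[p]) ^ 2) / 64) ^ k) := by
    refine M.sum _ _ (fun k hk => ?_)
    have hk' := Finset.mem_Ico.1 hk
    have hd : p ∣ (2 * k).choose k := by
      have h1 : p ∣ (2 * k).factorial := by
        rw [hp.out.dvd_factorial]; omega
      have h2 := Nat.choose_mul_factorial_mul_factorial (show k ≤ 2 * k by omega)
      rw [← h2] at h1
      have h3 : ¬ p ∣ k.factorial := fun h => by
        rw [hp.out.dvd_factorial] at h
        omega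
      rcases (hp.out.dvd_mul).1 h1 with h | h
      · rcases (hp.out.dvd_mul).1 h with h | h
        · exact h
        · exact absurd h h3
      · rw [show 2 * k - k = k by omega] at h
        exact absurd h h3
    obtain ⟨c, hc⟩ := hd
    have h1 : M p 1 ((2 * k).choose k : ℚ_[p]) := ⟨c, by rw [hc]; push_cast; ring⟩
    have h2 : M p 0 ((1 - (a : ℚ_[p]) ^ 2) / 64) := by
      rw [hz]
      have hp16 : ¬ p ∣ 16 := fun h => by
        have h' : p ∣ 2 ^ 4 := h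
        exact hp2 (hp.out.dvd_of_dvd_pow h')
      refine M.div_nat hp16 ?_
      have : ((16 : ℕ) : ℚ_[p]) * (y / (-16)) = -y := by push_cast; ring
      rw [this]
      exact hyM.neg
    have h3 := (h1.pow 3).mul (h2.pow k)
    simpa using h3
  have hmain : ∑ k ∈ Finset.range p,
        ((2 * k).choose k : ℚ_[p]) ^ 3 * ((1 - (a : ℚ_[p]) ^ 2) / 64) ^ k -
      (legSum n (a : ℚ_[p]) ^ 2 + (p : ℚ_[p]) ^ 2 / 2 *
        ∑ i ∈ Finset.range n, legSum (n - 1 - i) (a : ℚ_[p]) ^ 2 / ((i : ℚ_[p]) + 1) ^ 2)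
      = (∑ k ∈ Finset.range (n + 1), (((2 * k).choose k : ℚ_[p]) / (-16) ^ k
        - ((n + k).choose (2 * k) : ℚ_[p]) - (p : ℚ_[p]) ^ 2 / 2 * ∑ i ∈ Finset.range n,
        ((n - 1 - i + k).choose (2 * k) : ℚ_[p]) / ((i : ℚ_[p]) + 1) ^ 2)
          * (((2 * k).choose k : ℚ_[p]) ^ 2 * y ^ k))
        + ∑ k ∈ Finset.Ico (n + 1) p, ((2 * k).choose k : ℚ_[p]) ^ 3
          * ((1 - (a : ℚ_[p]) ^ 2) / 64) ^ k := by
    rw [hF, hL n le_rfl]
    have h1 : ∑ i ∈ Finset.range n, legSum (n - 1 - i) (a : ℚ_[p]) ^ 2 / ((i : ℚ_[p]) + 1) ^ 2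
        = ∑ k ∈ Finset.range (n + 1), (∑ i ∈ Finset.range n,
          ((n - 1 - i + k).choose (2 * k) : ℚ_[p]) / ((i : ℚ_[p]) + 1) ^ 2)
            * (((2 * k).choose k : ℚ_[p]) ^ 2 * y ^ k) := by
      simp only [Finset.sum_mul]
      rw [Finset.sum_comm]
      refine Finset.sum_congr rfl (fun i hi => ?_)
      have hi' := Finset.mem_range.1 hi
      rw [hL (n - 1 - i) (by omega), Finset.sum_div]
      refine Finset.sum_congr rfl (fun k _ => ?_)
      ring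
    rw [h1]
    have h2 : ∑ k ∈ Finset.range (n + 1), (((2 * k).choose k : ℚ_[p]) / (-16) ^ k
        - ((n + k).choose (2 * k) : ℚ_[p]) - (p : ℚ_[p]) ^ 2 / 2 * ∑ i ∈ Finset.range n,
        ((n - 1 - i + k).choose (2 * k) : ℚ_[p]) / ((i : ℚ_[p]) + 1) ^ 2)
          * (((2 * k).choose k : ℚ_[p]) ^ 2 * y ^ k)
        = ∑ k ∈ Finset.range (n + 1), ((2 * k).choose k : ℚ_[p]) / (-16) ^ k
            * (((2 * k).choose k : ℚ_[p]) ^ 2 * y ^ k)
          - ∑ k ∈ Finset.range (n + 1), ((n + k).choose (2 * k) : ℚ_[p])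
            * (((2 * k).choose k : ℚ_[p]) ^ 2 * y ^ k)
          - (p : ℚ_[p]) ^ 2 / 2 * ∑ k ∈ Finset.range (n + 1), (∑ i ∈ Finset.range n,
            ((n - 1 - i + k).choose (2 * k) : ℚ_[p]) / ((i : ℚ_[p]) + 1) ^ 2)
            * (((2 * k).choose k : ℚ_[p]) ^ 2 * y ^ k) := by
      rw [Finset.mul_sum, ← Finset.sum_sub_distrib, ← Finset.sum_sub_distrib]
      refine Finset.sum_congr rfl (fun k _ => ?_)
      ring
    rw [h2]
    ring
  have hfin : M p 3 (∑ k ∈ Finset.range p,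
        ((2 * k).choose k : ℚ_[p]) ^ 3 * ((1 - (a : ℚ_[p]) ^ 2) / 64) ^ k -
      (legSum n (a : ℚ_[p]) ^ 2 + (p : ℚ_[p]) ^ 2 / 2 *
        ∑ i ∈ Finset.range n, legSum (n - 1 - i) (a : ℚ_[p]) ^ 2 / ((i : ℚ_[p]) + 1) ^ 2)) := by
    rw [hmain]
    refine M.add (M.sum _ _ (fun k hk => ?_)) hT
    have hk' := Finset.mem_range.1 hk
    have h1 := (core n hn hp5 k (by omega)).mul
      (((M.natCast (p := p) ((2 * k).choose k)).pow 2).mul (hyM.pow k))
    simpa using h1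
  exact hfin

end Pool.Agent.BC90323
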