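import Pool.Agent.DF49E3.P3
import Pool.Agent.DF49E3.P5i

set_option autoImplicit false

/-! MP_90323e_nt, package B4: the explicit endomorphism. -/

namespace Pool.Agent.BC90323

open PowerSeries Pool.Agent.DF49E3

namespace B4

section Alg

variable {B : Type*} [CommRing B]

/-- numerator of `f` -/
def Nf (x o : B) : B := x * (o ^ 2 - x)
/-- denominator of `f` -/
def Df (x o : B) : B := 1 - o ^ 2 * x
/-- `Df² - Nf²` -/
def Dl (x o : B) : B := (1 - 2 * o ^ 2 * x + x ^ 2) * (1 - x ^ 2)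
/-- numerator of `r` -/
def Rn (x o : B) : B := 2 * ((1 + o * x) * (o + x))
/-- numerator of `s` -/
def Tn (x o a : B) : B :=
  (Df x o ^ 2 - 4 * a * Nf x o * Df x o + Nf x o ^ 2) * (Df x o ^ 2 + Nf x o ^ 2) +
    4 * Nf x o ^ 2 * Df x o ^ 2

variable {B' : Type*} [CommRing B'] {F : Type*} [FunLike F B B'] [RingHomClass F B B'] (φ : F)

@[simp] lemma map_Nf (x o : B) : φ (Nf x o) = Nf (φ x) (φ o) := by simp [Nf]
@[simp] lemma map_Df (x o : B) : φ (Df x o) = Df (φ x) (φ o) := by simp [Df]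
@[simp] lemma map_Dl (x o : B) : φ (Dl x o) = Dl (φ x) (φ o) := by simp [Dl, map_ofNat φ]
@[simp] lemma map_Rn (x o : B) : φ (Rn x o) = Rn (φ x) (φ o) := by simp [Rn, map_ofNat φ]
@[simp] lemma map_Tn (x o a : B) : φ (Tn x o a) = Tn (φ x) (φ o) (φ a) := by
  simp [Tn, map_ofNat φ]

lemma dl_eq (x o : B) : Df x o ^ 2 - Nf x o ^ 2 = Dl x o := by
  simp only [Df, Nf, Dl]; ring

lemma quartic_id {o h c : B} (y : B) (ho : o ^ 2 - o + 2 = 0) (hoh : o * h = 1)
    (hc : c = o ^ 2 + h ^ 2) :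
    ((1 + o * y) * (1 + h * y)) ^ 2 = Df y o ^ 2 - c * Nf y o * Df y o + Nf y o ^ 2 := by
  simp only [Df, Nf]
  grind

lemma ode_id {o h c : B} (y : B) (ho : o ^ 2 - o + 2 = 0) (hoh : o * h = 1)
    (hc : c = o ^ 2 + h ^ 2) :
    (1 - 2 * c * y + 3 * y ^ 2) + 2 * (y * (o ^ 2 - y)) = (1 + o * y) * (1 + h * y) := by
  grind

lemma w_id {o h c : B} (y : B) (hoh : o * h = 1) (hc : c = o ^ 2 + h ^ 2) :
    o ^ 2 * y * (1 - c * y + y ^ 2) = Df y o * Nf y o := by
  simp only [Df, Nf]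
  grind

end Alg

section Ser

variable {A : Type*} [CommRing A]

lemma cc_Df (e : A) : constantCoeff (Df (X ^ 2 : A⟦X⟧) (C e)) = 1 := by
  rw [map_Df]; simp [Df]
lemma cc_Nf (e : A) : constantCoeff (Nf (X ^ 2 : A⟦X⟧) (C e)) = 0 := by
  rw [map_Nf]; simp [Nf]
lemma cc_Dl (e : A) : constantCoeff (Dl (X ^ 2 : A⟦X⟧) (C e)) = 1 := by
  rw [map_Dl]; simp [Dl]

/-- the solution with multiplier `ω` -/
theorem sol1 [IsDomain A] [CharZero A] {a o h : A} (ho : o ^ 2 - o + 2 = 0) (hoh : o * h = 1)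
    (hc : 2 * a = o ^ 2 + h ^ 2) {w I : A⟦X⟧} (hb : Base a w)
    (hI : Df (X ^ 2) (C o) * I = 1) :
    Sol a w o (C o * X * w * I) ((1 + C o * X ^ 2) * (1 + C h * X ^ 2) * I) := by
  have ho' : (C o : A⟦X⟧) ^ 2 - C o + 2 = 0 := by
    have := congrArg (C : A →+* A⟦X⟧) ho
    simpa [map_ofNat] using this
  have hoh' : (C o : A⟦X⟧) * C h = 1 := by
    rw [← map_mul, hoh, map_one]
  have hc' : (C (2 * a) : A⟦X⟧) = C o ^ 2 + C h ^ 2 := by
    rw [hc, map_add, map_pow, map_pow]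
  have hw2 := hb.w2
  have hI0 : constantCoeff I = 1 := by
    have := congrArg constantCoeff hI
    rw [map_mul, cc_Df] at this
    simpa using this
  set c : A⟦X⟧ := C (2 * a) with hcdef
  have q := quartic_id (X ^ 2 : A⟦X⟧) ho' hoh' hc'
  have o1 := ode_id (X ^ 2 : A⟦X⟧) ho' hoh' hc'
  have w1 := w_id (X ^ 2 : A⟦X⟧) hoh' hc'
  have hR2 : (C o * X * w * I) ^ 2 = Nf (X ^ 2) (C o) * I := by
    linear_combination (C o ^ 2 * X ^ 2 * I ^ 2) * hw2 + I ^ 2 * w1 + (Nf (X ^ 2) (C o) * I) * hI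
  refine ⟨by simp, by simp [hI0], ?_, ?_⟩
  · linear_combination I ^ 2 * q + (c - (C o * X * w * I) ^ 2 - Nf (X ^ 2) (C o) * I) * hR2
      + (Df (X ^ 2) (C o) * I + 1 - c * Nf (X ^ 2) (C o) * I) * hI
  · have hDf' : derivative A (Df (X ^ 2 : A⟦X⟧) (C o)) = - (2 * C o ^ 2 * X) := by
      simp only [Df]
      rw [map_sub, Derivation.map_one_eq_zero, Derivation.leibniz, PowerSeries.derivative_pow,
        PowerSeries.derivative_X, Derivation.leibniz_pow, PowerSeries.derivative_C]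
      simp only [smul_eq_mul]
      push_cast
      ring
    have hI' : derivative A I = I ^ 2 * (2 * C o ^ 2 * X) := by
      have h1 := congrArg (derivative A) hI
      rw [Derivation.leibniz, Derivation.map_one_eq_zero, smul_eq_mul, smul_eq_mul, hDf'] at h1
      linear_combination I * h1 - (derivative A I) * hI
    have hww : 2 * (w * derivative A w) = 2 * (-c * X + 2 * X ^ 3) := by
      have h1 := congrArg (derivative A) hw2
      rw [map_add, map_sub, Derivation.map_one_eq_zero, Derivation.leibniz,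
        PowerSeries.derivative_pow, PowerSeries.derivative_pow, PowerSeries.derivative_pow,
        PowerSeries.derivative_X, PowerSeries.derivative_C] at h1
      simp only [smul_eq_mul] at h1
      push_cast at h1
      linear_combination h1
    have h20 : (2 : A⟦X⟧) ≠ 0 := by
      intro h
      have h' := congrArg constantCoeff h
      rw [map_ofNat, map_zero] at h'
      exact two_ne_zero h'
    have hww' := mul_left_cancel₀ h20 hww
    have hd : derivative A (C o * X * w * I) =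
        C o * (w * I + X * derivative A w * I + X * w * derivative A I) := by
      rw [Derivation.leibniz, Derivation.leibniz, Derivation.leibniz, PowerSeries.derivative_C,
        PowerSeries.derivative_X]
      simp only [smul_eq_mul]
      ring
    rw [hd, hI']
    linear_combination (C o * I + 2 * C o ^ 3 * X ^ 2 * I ^ 2) * hw2 + C o * X * I * hww'
      + C o * I * o1 + 2 * C o * I ^ 2 * w1 + 2 * C o * Nf (X ^ 2) (C o) * I * hI
      + 2 * C o * I * (by simp only [Nf] : Nf (X ^ 2 : A⟦X⟧) (C o) = X ^ 2 * (C o ^ 2 - X ^ 2))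

/-- the doubling -/
theorem sol2 [IsDomain A] [CharZero A] {a o h : A} (ho : o ^ 2 - o + 2 = 0) (hoh : o * h = 1)
    (hc : 2 * a = o ^ 2 + h ^ 2) {w : A⟦X⟧} (hb : Base a w) :
    ∃ R S : A⟦X⟧, Sol a w (2 * o) R S ∧
      R * Dl (X ^ 2) (C o) = X * w * Rn (X ^ 2) (C o) ∧
      S * Dl (X ^ 2) (C o) ^ 2 = Tn (X ^ 2) (C o) (C a) := by
  obtain ⟨I, hI⟩ : ∃ I : A⟦X⟧, Df (X ^ 2) (C o) * I = 1 :=
    ⟨_, mul_invOfUnit _ 1 (by rw [cc_Df]; simp)⟩
  have h1 := sol1 ho hoh hc hb hI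
  obtain ⟨R, S, hRS, hR, hS⟩ := h1.add h1
  have ho' : (C o : A⟦X⟧) ^ 2 - C o + 2 = 0 := by
    have := congrArg (C : A →+* A⟦X⟧) ho
    simpa [map_ofNat] using this
  have hoh' : (C o : A⟦X⟧) * C h = 1 := by
    rw [← map_mul, hoh, map_one]
  have hc' : (C (2 * a) : A⟦X⟧) = C o ^ 2 + C h ^ 2 := by
    rw [hc, map_add, map_pow, map_pow]
  have hca : (C (2 * a) : A⟦X⟧) = 2 * C a := by
    rw [map_mul, map_ofNat]
  have q := h1.quartic
  have w1 := w_id (X ^ 2 : A⟦X⟧) hoh' hc'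
  have hw2 := hb.w2
  have hR2 : (C o * X * w * I) ^ 2 = Nf (X ^ 2) (C o) * I := by
    linear_combination (C o ^ 2 * X ^ 2 * I ^ 2) * hw2 + I ^ 2 * w1 + (Nf (X ^ 2) (C o) * I) * hI
  set R₁ := C o * X * w * I with hR₁
  set S₁ := (1 + C o * X ^ 2) * (1 + C h * X ^ 2) * I with hS₁
  set N := Nf (X ^ 2 : A⟦X⟧) (C o) with hN
  set D := Df (X ^ 2 : A⟦X⟧) (C o) with hD
  have hdl := dl_eq (X ^ 2 : A⟦X⟧) (C o)
  rw [← hN, ← hD] at hdl
  have e4 : (1 - R₁ ^ 2 * R₁ ^ 2) * D ^ 2 = Dl (X ^ 2) (C o) := by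
    rw [hR2, ← hdl]
    linear_combination (-(N ^ 2 * (D * I + 1))) * hI
  have e5 : (1 + R₁ ^ 2 * R₁ ^ 2) * D ^ 2 = D ^ 2 + N ^ 2 := by
    rw [hR2]
    linear_combination (N ^ 2 * (D * I + 1)) * hI
  have e6 : R₁ ^ 2 * D = N := by
    rw [hR2]; linear_combination N * hI
  refine ⟨R, S, by rw [two_mul]; exact hRS, ?_, ?_⟩
  · rw [← e4]
    have e7 : R * ((1 - R₁ ^ 2 * R₁ ^ 2) * D ^ 2) = 2 * R₁ * S₁ * D ^ 2 := by
      linear_combination D ^ 2 * hR
    rw [e7, hR₁, hS₁]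
    simp only [Rn]
    linear_combination (2 * C o * X * w * (1 + C o * X ^ 2) * (1 + C h * X ^ 2) * (D * I + 1)) * hI +
      2 * X * w * (1 + C o * X ^ 2) * X ^ 2 * hoh'
  · rw [← e4]
    have e7 : S * ((1 - R₁ ^ 2 * R₁ ^ 2) * D ^ 2) ^ 2 =
        ((S₁ ^ 2 - 2 * C a * R₁ ^ 2) * D ^ 2) * ((1 + R₁ ^ 2 * R₁ ^ 2) * D ^ 2) +
          4 * (R₁ ^ 2 * D) ^ 2 * D ^ 2 := by
      rw [← hca]
      linear_combination D ^ 4 * hS
    rw [e7, e5, e6]
    have e8 : (S₁ ^ 2 - 2 * C a * R₁ ^ 2) * D ^ 2 = D ^ 2 - 4 * C a * N * D + N ^ 2 := by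
      rw [q, hca]
      have e9 : R₁ ^ 4 * D ^ 2 = N ^ 2 := by
        rw [← e6]; ring
      linear_combination e9 - 4 * C a * D * e6
    rw [e8]
    simp only [Tn, ← hN, ← hD]

end Ser

section Rat

variable {k : Type*} [Field k]

lemma inv_Nf {x : k} (hx : x ≠ 0) (e : k) : Nf x⁻¹ e = -Df x e / x ^ 2 := by
  simp only [Nf, Df]; field_simp; ring
lemma inv_Df {x : k} (hx : x ≠ 0) (e : k) : Df x⁻¹ e = -Nf x e / x ^ 2 := by
  simp only [Nf, Df]; field_simp; ring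
lemma inv_Dl {x : k} (hx : x ≠ 0) (e : k) : Dl x⁻¹ e = -Dl x e / x ^ 4 := by
  simp only [Dl]; field_simp; ring
lemma inv_Rn {x : k} (hx : x ≠ 0) (e : k) : Rn x⁻¹ e = Rn x e / x ^ 2 := by
  simp only [Rn]; field_simp; ring
lemma inv_Tn {x : k} (hx : x ≠ 0) (e a : k) : Tn x⁻¹ e a = Tn x e a / x ^ 8 := by
  simp only [Tn, inv_Nf hx, inv_Df hx]; field_simp; ring

/-- `r` -/
noncomputable def gr (o : k) : RatFunc k :=
  Rn RatFunc.X (RatFunc.C o) / Dl RatFunc.X (RatFunc.C o)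

/-- `s` -/
noncomputable def gs (a o : k) : RatFunc k :=
  Tn RatFunc.X (RatFunc.C o) (RatFunc.C a) / Dl RatFunc.X (RatFunc.C o) ^ 2

theorem even_gen [CharZero k] {a o h : k} (ho : o ^ 2 - o + 2 = 0) (hoh : o * h = 1)
    (hc : 2 * a = o ^ 2 + h ^ 2) {w R S : k⟦X⟧} (hb : Base a w)
    (hR : R * Dl (X ^ 2) (C o) = X * w * Rn (X ^ 2) (C o))
    (hS : S * Dl (X ^ 2) (C o) ^ 2 = Tn (X ^ 2) (C o) (C a)) :
    EvenS a w R S (gr o) (gs a o) 1 := by
  have hinj : Function.Injective (algebraMap k⟦X⟧ (FractionRing k⟦X⟧)) :=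
    IsFractionRing.injective k⟦X⟧ (FractionRing k⟦X⟧)
  have hX2 : jj (RatFunc.X : RatFunc k) = (algebraMap k⟦X⟧ (FractionRing k⟦X⟧)) (X ^ 2) := by
    rw [jj_X, map_pow]
  have hDjj : jj (Dl (RatFunc.X : RatFunc k) (RatFunc.C o)) =
      (algebraMap k⟦X⟧ (FractionRing k⟦X⟧)) (Dl (X ^ 2) (C o)) := by
    rw [map_Dl, hX2, P5i.jj_C, map_Dl]
  have hRjj : jj (Rn (RatFunc.X : RatFunc k) (RatFunc.C o)) =
      (algebraMap k⟦X⟧ (FractionRing k⟦X⟧)) (Rn (X ^ 2) (C o)) := by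
    rw [map_Rn, hX2, P5i.jj_C, map_Rn]
  have hTjj : jj (Tn (RatFunc.X : RatFunc k) (RatFunc.C o) (RatFunc.C a)) =
      (algebraMap k⟦X⟧ (FractionRing k⟦X⟧)) (Tn (X ^ 2) (C o) (C a)) := by
    rw [map_Tn, hX2, P5i.jj_C, P5i.jj_C, map_Tn]
  have hne : ∀ f : k⟦X⟧, constantCoeff f = 1 → (algebraMap k⟦X⟧ (FractionRing k⟦X⟧)) f ≠ 0 := by
    intro f hf h
    have : f = 0 := hinj (by rw [h, map_zero])
    rw [this, map_zero] at hf
    exact zero_ne_one hf
  have hD0 := hne _ (cc_Dl o)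
  have hX0 : (RatFunc.X : RatFunc k) ≠ 0 := RatFunc.X_ne_zero
  have eX : algebraMap (Polynomial k) (RatFunc k) Polynomial.X = RatFunc.X := RatFunc.algebraMap_X
  have eC : ∀ c : k, algebraMap (Polynomial k) (RatFunc k) (Polynomial.C c) = RatFunc.C c :=
    fun c => RatFunc.algebraMap_C c
  have pD : algebraMap (Polynomial k) (RatFunc k) (Dl Polynomial.X (Polynomial.C o))
      = Dl RatFunc.X (RatFunc.C o) := by
    rw [map_Dl, eX, eC]
  have pR : algebraMap (Polynomial k) (RatFunc k) (Rn Polynomial.X (Polynomial.C o))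
      = Rn RatFunc.X (RatFunc.C o) := by
    rw [map_Rn, eX, eC]
  have pT : algebraMap (Polynomial k) (RatFunc k) (Tn Polynomial.X (Polynomial.C o) (Polynomial.C a))
      = Tn RatFunc.X (RatFunc.C o) (RatFunc.C a) := by
    rw [map_Tn, eX, eC, eC]
  have vD : (Dl Polynomial.X (Polynomial.C o) : Polynomial k).eval 1 = 0 := by
    simp [Dl]
  have vR : (Rn Polynomial.X (Polynomial.C o) : Polynomial k).eval 1 = 2 * (1 + o) ^ 2 := by
    simp only [Rn, Polynomial.eval_mul, Polynomial.eval_add, Polynomial.eval_X, Polynomial.eval_C,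
      Polynomial.eval_ofNat, Polynomial.eval_one]
    ring
  have vT : (Tn Polynomial.X (Polynomial.C o) (Polynomial.C a) : Polynomial k).eval 1 =
      8 * (1 + a) * (1 - o ^ 2) ^ 4 := by
    have := map_Tn (Polynomial.evalRingHom (1 : k)) Polynomial.X (Polynomial.C o) (Polynomial.C a)
    simp only [Polynomial.coe_evalRingHom, Polynomial.eval_X, Polynomial.eval_C] at this
    rw [this]
    simp only [Tn, Nf, Df]
    ring
  have hDx : Dl (RatFunc.X : RatFunc k) (RatFunc.C o) ≠ 0 := by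
    intro h
    rw [h, map_zero] at hDjj
    exact hD0 hDjj.symm
  have ha1 : (2 - 2 * a) ≠ 0 := by
    intro h0
    have h1 : (o - h) ^ 2 = 0 := by linear_combination -h0 - hc - 2 * hoh
    have h2 : o = h := by
      have := pow_eq_zero_iff (two_ne_zero) |>.1 h1
      exact sub_eq_zero.1 this
    rw [← h2] at hoh
    have h3 : o = 3 := by linear_combination hoh - ho
    rw [h3] at hoh
    norm_num at hoh
  have ho1 : (1 + o) ≠ 0 := by
    intro h0
    have : o = -1 := by linear_combination h0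
    rw [this] at ho
    norm_num at ho
  have hkey : 8 * (1 + a) * (1 - o ^ 2) ^ 4 = 1 * (0 - (2 - 2 * a) * (2 * (1 + o) ^ 2) ^ 2) := by
    have h2 : (1 - o) = 2 * h := by grind
    grind
  refine ⟨?_, ?_, ?_, ?_, ⟨Dl RatFunc.X (RatFunc.C o) ^ 2, 0, 8 * (1 + a) * (1 - o ^ 2) ^ 4,
    (2 - 2 * a) * (2 * (1 + o) ^ 2) ^ 2, ?_, ?_, ?_, ?_, ?_, hkey⟩, by simp⟩
  · unfold gr
    rw [map_div₀, hDjj, hRjj]
    have h1 := congrArg (algebraMap k⟦X⟧ (FractionRing k⟦X⟧)) hR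
    simp only [map_mul] at h1
    rw [map_mul]
    field_simp
    linear_combination h1
  · unfold gs
    rw [map_div₀, map_pow, hDjj, hTjj]
    have h1 := congrArg (algebraMap k⟦X⟧ (FractionRing k⟦X⟧)) hS
    simp only [map_mul, map_pow] at h1
    rw [← h1]
    field_simp
  · unfold gr
    rw [map_div₀, map_Rn, map_Dl, iota_X, P5i.iota_C, inv_Rn hX0, inv_Dl hX0]
    field_simp
  · unfold gs
    rw [map_div₀, map_pow, map_Tn, map_Dl, iota_X, P5i.iota_C, P5i.iota_C, inv_Tn hX0, inv_Dl hX0]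
    field_simp
  · refine ⟨Dl Polynomial.X (Polynomial.C o) ^ 2, 1, by simp, ?_, ?_⟩
    · rw [map_pow, pD, map_one, div_one]
    · rw [Polynomial.eval_pow, vD]; simp
  · refine ⟨Tn Polynomial.X (Polynomial.C o) (Polynomial.C a), 1, by simp, ?_, ?_⟩
    · rw [pT, map_one, div_one, gs]
      field_simp
    · rw [vT]; simp
  · refine ⟨Dl Polynomial.X (Polynomial.C o) * Rn Polynomial.X (Polynomial.C o), 1, by simp, ?_, ?_⟩
    · rw [map_mul, pD, pR, map_one, div_one, gr]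
      field_simp
    · rw [Polynomial.eval_mul, vD]; simp
  · refine ⟨Polynomial.X * (1 - Polynomial.C (2 * a) * Polynomial.X + Polynomial.X ^ 2) *
      Rn Polynomial.X (Polynomial.C o) ^ 2, 1, by simp, ?_, ?_⟩
    · simp only [map_mul, map_pow, map_add, map_sub, map_one, pR, eX, eC, div_one, gr, WX]
      simp only [← map_mul]
      field_simp
    · rw [Polynomial.eval_mul, Polynomial.eval_pow, vR]
      simp only [Polynomial.eval_mul, Polynomial.eval_add, Polynomial.eval_sub,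
        Polynomial.eval_one, Polynomial.eval_C, Polynomial.eval_X, Polynomial.eval_pow]
      ring
  · rw [zero_sub, neg_ne_zero]
    exact mul_ne_zero ha1 (pow_ne_zero 2 (mul_ne_zero two_ne_zero (pow_ne_zero 2 ho1)))

end Rat

end B4

/-- B4 (the explicit endomorphism; doubling of multiplication by `ω`) -/
theorem exists_gen {p : ℕ} [Fact p.Prime] (hp : p ≠ 2) (a ω : ℤ_[p])
    (hω : ω ^ 2 - ω + 2 = 0) (ha : a * ω ^ 3 = 3) (w : ℤ_[p]⟦X⟧) (hb : Base a w) :
    ∃ (R S : ℤ_[p]⟦X⟧) (r s : RatFunc ℚ_[p]), Sol a w (2 * ω) R S ∧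
      EvenS (a : ℚ_[p]) (PowerSeries.map (algebraMap ℤ_[p] ℚ_[p]) w)
        (PowerSeries.map (algebraMap ℤ_[p] ℚ_[p]) R)
        (PowerSeries.map (algebraMap ℤ_[p] ℚ_[p]) S) r s 1 := by
  set φ := algebraMap ℤ_[p] ℚ_[p] with hφ
  have hφa : φ a = (a : ℚ_[p]) := rfl
  have h2 : IsUnit (2 : ℤ_[p]) := by
    have h3 : IsUnit ((2 : ℕ) : ℤ_[p]) := by
      rw [PadicInt.isUnit_iff, PadicInt.norm_natCast_eq_one_iff]
      exact (Nat.coprime_primes Fact.out Nat.prime_two).2 hp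
    exact_mod_cast h3
  obtain ⟨u, hu⟩ := h2.exists_right_inv
  have hoh : ω * ((1 - ω) * u) = 1 := by linear_combination hu - u * hω
  set h := (1 - ω) * u with hh
  have hc : 2 * a = ω ^ 2 + h ^ 2 := by
    have e1 : 2 * a = 6 * h ^ 3 := by
      have e2 : ω ^ 3 * h ^ 3 = 1 := by rw [← mul_pow, hoh, one_pow]
      linear_combination 2 * h ^ 3 * ha - 2 * a * e2
    have e3 : ω ^ 5 + ω = 6 := by grind
    have e4 : ω ^ 3 * h ^ 3 = 1 := by rw [← mul_pow, hoh, one_pow]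
    rw [e1, ← e3]
    linear_combination ω ^ 2 * e4 + h ^ 2 * hoh
  obtain ⟨R, S, hsol, hR, hS⟩ := B4.sol2 hω hoh hc hb
  refine ⟨R, S, B4.gr (φ ω), B4.gs (φ a) (φ ω), hsol, ?_⟩
  have hb' : Base (φ a) (PowerSeries.map φ w) := Base.map φ hb
  rw [← hφa]
  apply B4.even_gen (h := φ h) _ _ _ hb'
  · have := congrArg (PowerSeries.map φ) hR
    rw [map_mul, map_mul, map_mul, B4.map_Dl, B4.map_Rn] at this
    simpa using this
  · have := congrArg (PowerSeries.map φ) hS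
    rw [map_mul, map_pow, B4.map_Dl, B4.map_Tn] at this
    simpa using this
  · have := congrArg φ hω
    simpa [map_ofNat] using this
  · rw [← map_mul, hoh, map_one]
  · have := congrArg φ hc
    simpa [map_ofNat] using this

end Pool.Agent.BC90323
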