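import Mathlib
import Pool.Agent.DF49E3.Defs
import Pool.Agent.DF49E3.P3
import Pool.Agent.DF49E3.P6
import Pool.Agent.DF49E3.P7
import Pool.Agent.DF49E3.P9

set_option autoImplicit false

/-!
Package B5 of MP_90323e_nt: the degree of multiplication by `u + v σ` with `σ² = -d`
(adapted from package P7 of MP_df49e3_nt).
-/

namespace Pool.Agent.BC90323

open PowerSeries Pool.Agent.DF49E3

/-- B5 -/
theorem ht_norm {k : Type*} [Field k] [CharZero k] {a : k} (ha : a ^ 2 ≠ 1) {w : k⟦X⟧}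
    (hb : Base a w) (d : ℤ) (hd : 0 < d) (σ : k) (hσ : σ ^ 2 = -(d : k))
    (R S : ℤ → ℤ → k⟦X⟧) (f g : ℤ → ℤ → RatFunc k)
    (hsol : ∀ u v : ℤ, Sol a w (u + v * σ) (R u v) (S u v))
    (hrat : ∀ u v : ℤ, IsRat w (R u v) (S u v) (f u v) (g u v)) (x y : ℤ) :
    (ht (f x y) : ℤ) = x ^ 2 + d * y ^ 2 := by
  have hpar : ∀ u₁ v₁ u₂ v₂ : ℤ, (ht (f (u₁ + u₂) (v₁ + v₂)) : ℤ) + ht (f (u₁ - u₂) (v₁ - v₂)) =
      2 * ht (f u₁ v₁) + 2 * ht (f u₂ v₂) := by
    intro u₁ v₁ u₂ v₂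
    have h3 := hsol (u₁ + u₂) (v₁ + v₂)
    have h4 := hsol (u₁ - u₂) (v₁ - v₂)
    have e3 : (((u₁ + u₂ : ℤ) : k) + ((v₁ + v₂ : ℤ) : k) * σ) =
        ((u₁ : k) + v₁ * σ) + ((u₂ : k) + v₂ * σ) := by push_cast; ring
    have e4 : (((u₁ - u₂ : ℤ) : k) + ((v₁ - v₂ : ℤ) : k) * σ) =
        ((u₁ : k) + v₁ * σ) - ((u₂ : k) + v₂ * σ) := by push_cast; ring
    rw [e3] at h3
    rw [e4] at h4
    exact P7.parallelogram ha hb (hsol u₁ v₁) (hsol u₂ v₂) h3 h4 (hrat _ _).1 (hrat _ _).1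
      (hrat _ _).1 (hrat _ _).1
  -- zero and one
  have hz : ht (f 0 0) = 0 := by
    have h1 := hsol 0 0
    have e1 : (((0 : ℤ) : k) + ((0 : ℤ) : k) * σ) = 0 := by push_cast; ring
    rw [e1] at h1
    obtain ⟨e2, -⟩ := Sol.unique hb h1 Sol.zero
    have h2 := (hrat 0 0).1
    rw [e2, map_zero, zero_pow two_ne_zero] at h2
    have h3 : f 0 0 = 0 := by
      apply jj_injective
      rw [← h2, map_zero]
    rw [h3]
    simp [ht]
  have ho : ht (f 1 0) = 1 := by
    have h1 := hsol 1 0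
    have e1 : (((1 : ℤ) : k) + ((0 : ℤ) : k) * σ) = 1 := by push_cast; ring
    rw [e1] at h1
    obtain ⟨e2, -⟩ := Sol.unique hb h1 (Sol.one hb)
    have h2 := (hrat 1 0).1
    rw [e2] at h2
    have h3 : f 1 0 = RatFunc.X := by
      apply jj_injective
      rw [← h2, jj_X]
    rw [h3]
    simp [ht]
  have hneg : ∀ u v : ℤ, (ht (f (-u) (-v)) : ℤ) = ht (f u v) := by
    intro u v
    have := hpar 0 0 u v
    rw [hz] at this
    simp only [zero_add, zero_sub] at this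
    push_cast at this
    linarith
  have hmulN : ∀ (n : ℕ) (u v : ℤ), (ht (f (n * u) (n * v)) : ℤ) = n ^ 2 * ht (f u v) := by
    intro n u v
    induction n using Nat.strong_induction_on with
    | _ n ih =>
      match n, ih with
      | 0, _ => simp [hz]
      | 1, _ => simp
      | n + 2, ih =>
        have h1 := ih (n + 1) (by omega)
        have h2 := ih n (by omega)
        have h3 := hpar ((n + 1 : ℕ) * u) ((n + 1 : ℕ) * v) u v
        have e1 : ((n + 1 : ℕ) : ℤ) * u + u = ((n + 2 : ℕ) : ℤ) * u := by push_cast; ring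
        have e2 : ((n + 1 : ℕ) : ℤ) * v + v = ((n + 2 : ℕ) : ℤ) * v := by push_cast; ring
        have e3 : ((n + 1 : ℕ) : ℤ) * u - u = (n : ℤ) * u := by push_cast; ring
        have e4 : ((n + 1 : ℕ) : ℤ) * v - v = (n : ℤ) * v := by push_cast; ring
        rw [e1, e2, e3, e4, h1, h2] at h3
        push_cast at h3 ⊢
        linear_combination h3
  have hmulZ : ∀ (n u v : ℤ), (ht (f (n * u) (n * v)) : ℤ) = n ^ 2 * ht (f u v) := by
    intro n u v
    rcases Int.natAbs_eq n with h | h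
    · rw [h]
      have := hmulN n.natAbs u v
      exact_mod_cast this
    · rw [h]
      have h1 := hmulN n.natAbs u v
      have h2 := hneg (n.natAbs * u) (n.natAbs * v)
      rw [neg_mul, neg_mul, h2, h1]
      ring
  -- multiplicativity
  have hmult : ∀ u₁ v₁ u₂ v₂ : ℤ, ((u₂ : k) + v₂ * σ ≠ 0) →
      ht (f (u₁ * u₂ - d * (v₁ * v₂)) (u₁ * v₂ + v₁ * u₂)) = ht (f u₁ v₁) * ht (f u₂ v₂) := by
    intro u₁ v₁ u₂ v₂ hne
    have h1 := hsol u₁ v₁
    have h2 := hsol u₂ v₂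
    have hR2 : R u₂ v₂ ≠ 0 := by
      intro h0
      have h3 := h2.ode
      rw [h0, map_zero, mul_zero] at h3
      have h4 := congrArg (constantCoeff (R := k)) h3
      rw [map_zero, map_mul, h2.S0, constantCoeff_C, mul_one] at h4
      exact hne h4.symm
    have htr := P7.transc h2.R0 hR2 (hrat u₂ v₂).1
    have h3 := h1.comp hb h2
    have e1 : ((u₁ : k) + v₁ * σ) * ((u₂ : k) + v₂ * σ) =
        (((u₁ * u₂ - d * (v₁ * v₂) : ℤ) : k) + ((u₁ * v₂ + v₁ * u₂ : ℤ) : k) * σ) := by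
      push_cast
      linear_combination (v₁ : k) * v₂ * hσ
    rw [e1] at h3
    obtain ⟨e2, -⟩ := Sol.unique hb (hsol _ _) h3
    have h4 := (hrat (u₁ * u₂ - d * (v₁ * v₂)) (u₁ * v₂ + v₁ * u₂)).1
    rw [e2] at h4
    rw [P7.comp_eq h2.R0 htr (hrat u₁ v₁).1 (hrat u₂ v₂).1 h4, ht_cmp]
  have hσ0 : σ ≠ 0 := by
    rintro rfl
    have h1 : (d : k) = 0 := by
      have h2 : (0 : k) ^ 2 = 0 := zero_pow two_ne_zero
      rw [h2] at hσ
      exact (neg_eq_zero.1 hσ.symm)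
    have h2 : d = 0 := by exact_mod_cast h1
    omega
  -- `σ`
  have h15 : (ht (f 0 1) : ℤ) = d := by
    have h1 := hmult 0 1 0 1 (by push_cast; simpa using hσ0)
    have h2 := hmulZ (-d) 1 0
    have e1 : (0 * 0 - d * (1 * 1) : ℤ) = -d * 1 := by ring
    have e2 : (0 * 1 + 1 * 0 : ℤ) = -d * 0 := by ring
    rw [e1, e2] at h1
    rw [h1, ho] at h2
    push_cast at h2
    have h3 : (0 : ℤ) ≤ ht (f 0 1) := Int.natCast_nonneg _
    nlinarith
  by_cases hxy : ((x : k) + (-y : ℤ) * σ) = 0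
  · -- then `x = y = 0`
    have h1 : (x : k) ^ 2 = -(d : k) * (y : k) ^ 2 := by
      have h2 : (x : k) = y * σ := by
        push_cast at hxy
        linear_combination hxy
      rw [h2, mul_pow, hσ]
      ring
    have h2 : x ^ 2 = -d * y ^ 2 := by exact_mod_cast h1
    have hx : x = 0 := by nlinarith [sq_nonneg x, sq_nonneg y]
    have hy : y = 0 := by nlinarith [sq_nonneg x, sq_nonneg y]
    rw [hx, hy, hz]
    norm_num
  · have h1 := hmult x y x (-y) hxy
    have h2 := hmulZ (x ^ 2 + d * y ^ 2) 1 0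
    have e1 : x * x - d * (y * -y) = (x ^ 2 + d * y ^ 2) * 1 := by ring
    have e2 : x * -y + y * x = (x ^ 2 + d * y ^ 2) * 0 := by ring
    rw [e1, e2] at h1
    rw [h1, ho] at h2
    push_cast at h2
    have h3 := hpar x 0 0 y
    rw [add_zero, zero_add, sub_zero, zero_sub] at h3
    have h4 := hmulZ x 1 0
    have h5 := hmulZ y 0 1
    rw [mul_one, mul_zero, ho] at h4
    rw [mul_one, mul_zero, h15] at h5
    rw [h4, h5] at h3
    push_cast at h3
    have h6 : ((ht (f x y) : ℤ) - ht (f x (-y))) ^ 2 = 0 := by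
      have h7 : (ht (f x (-y)) : ℤ) = 2 * (x ^ 2 + d * y ^ 2) - ht (f x y) := by linarith
      rw [h7] at h2 ⊢
      linear_combination (-4) * h2
    have h8 : (ht (f x y) : ℤ) = ht (f x (-y)) := by
      have := pow_eq_zero_iff (two_ne_zero) |>.1 h6
      linarith
    linarith

end Pool.Agent.BC90323
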