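import Mathlib

set_option autoImplicit false

/-!
B6 (representation of `p` by `x ^ 2 + 7 * y ^ 2`) and B7 (square root of `-7` in the `p`-adic
integers).
-/

namespace Pool.Agent.BC90323.B6

theorem ne2 : (((2 : ℕ) : ℤ) : ZMod 7) ≠ 0 := by decide
theorem ne4 : (((4 : ℕ) : ℤ) : ZMod 7) ≠ 0 := by decide
theorem sq2 : (((2 : ℕ) : ℤ) : ZMod 7) = 3 * 3 := by decide
theorem sq4 : (((4 : ℕ) : ℤ) : ZMod 7) = 2 * 2 := by decide

/-- `-7` is a square modulo `p` -/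
theorem exists_sq {p : ℕ} [Fact p.Prime] (hp2 : p ≠ 2)
    (h : p % 7 = 1 ∨ p % 7 = 2 ∨ p % 7 = 4) : ∃ r : ZMod p, r ^ 2 = -7 := by
  have : Fact (Nat.Prime 7) := ⟨by norm_num⟩
  have hp7 : p ≠ 7 := by rintro rfl; revert h; decide
  have h7 : legendreSym 7 (p : ℤ) = 1 := by
    rw [legendreSym.mod]
    have : ((p : ℤ) % ((7 : ℕ) : ℤ)) = ((p % 7 : ℕ) : ℤ) := by push_cast; rfl
    rw [this]
    rcases h with h | h | h <;> rw [h]
    · simp
    · exact (legendreSym.eq_one_iff 7 ne2).2 ⟨3, sq2⟩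
    · exact (legendreSym.eq_one_iff 7 ne4).2 ⟨2, sq4⟩
  have hrec := legendreSym.quadratic_reciprocity' (p := p) (q := 7) hp2 (by norm_num)
  have hneg : legendreSym p (-1) = (-1) ^ (p / 2) := by
    rw [legendreSym.at_neg_one hp2, ZMod.χ₄_eq_neg_one_pow]
    exact Nat.Prime.mod_two_eq_one_iff_ne_two (Fact.out) |>.2 hp2
  have hone : legendreSym p (-7) = 1 := by
    have e : (-7 : ℤ) = (-1) * 7 := by norm_num
    rw [e, legendreSym.mul, hneg]
    have e2 : legendreSym 7 (p : ℤ) = (-1) ^ (p / 2 * (7 / 2)) * legendreSym p ((7 : ℕ) : ℤ) := hrec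
    rw [h7] at e2
    have e3 : (-1 : ℤ) ^ (p / 2 * (7 / 2)) = (-1) ^ (p / 2) := by
      have : p / 2 * (7 / 2) = p / 2 + 2 * (p / 2) := by norm_num; ring
      rw [this, pow_add, pow_mul]; norm_num
    rw [e3] at e2
    exact_mod_cast e2.symm
  have hne : ((-7 : ℤ) : ZMod p) ≠ 0 := by
    intro h0
    have := (legendreSym.eq_zero_iff p (-7)).2 h0
    rw [hone] at this
    exact one_ne_zero this
  obtain ⟨r, hr⟩ := (legendreSym.eq_one_iff p hne).1 hone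
  refine ⟨r, ?_⟩
  rw [sq, ← hr]
  push_cast
  ring

/-- Thue's lemma -/
theorem thue {p : ℕ} (hp : p.Prime) (r : ZMod p) :
    ∃ x y : ℤ, (x, y) ≠ (0, 0) ∧ x ^ 2 < p ∧ y ^ 2 < p ∧ (x : ZMod p) = r * y := by
  have : NeZero p := ⟨hp.ne_zero⟩
  set k := Nat.sqrt p with hk
  let f : Fin (k + 1) × Fin (k + 1) → ZMod p := fun u => ((u.1 : ℕ) : ZMod p) - r * ((u.2 : ℕ) : ZMod p)
  have hcard : Fintype.card (ZMod p) < Fintype.card (Fin (k + 1) × Fin (k + 1)) := by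
    rw [ZMod.card, Fintype.card_prod, Fintype.card_fin]
    exact Nat.lt_succ_sqrt p
  obtain ⟨u, v, huv, hf⟩ := Fintype.exists_ne_map_eq_of_card_lt f hcard
  have hkp : k * k < p := by
    rcases (Nat.sqrt_le p).lt_or_eq with h | h
    · exact h
    · exfalso
      have : ¬ Nat.Prime (p.sqrt * p.sqrt) := by
        apply Nat.not_prime_mul
        · intro h1; rw [h1] at h; rw [← h] at hp; revert hp; decide
        · intro h1; rw [h1] at h; rw [← h] at hp; revert hp; decide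
      rw [h] at this
      exact this hp
  have hb : ∀ a b : Fin (k + 1), (((a : ℕ) : ℤ) - ((b : ℕ) : ℤ)) ^ 2 < p := by
    intro a b
    have ha : ((a : ℕ) : ℤ) ≤ k := by have := a.2; omega
    have hb' : ((b : ℕ) : ℤ) ≤ k := by have := b.2; omega
    have ha0 : (0 : ℤ) ≤ ((a : ℕ) : ℤ) := by positivity
    have hb0 : (0 : ℤ) ≤ ((b : ℕ) : ℤ) := by positivity
    have h1 : |((a : ℕ) : ℤ) - ((b : ℕ) : ℤ)| ≤ k := by rw [abs_le]; constructor <;> linarith
    have h2 : (((a : ℕ) : ℤ) - ((b : ℕ) : ℤ)) ^ 2 ≤ (k : ℤ) ^ 2 := by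
      rw [← sq_abs]
      exact pow_le_pow_left₀ (abs_nonneg _) h1 2
    have h3 : ((k * k : ℕ) : ℤ) < p := by exact_mod_cast hkp
    push_cast at h3
    nlinarith
  refine ⟨((u.1 : ℕ) : ℤ) - ((v.1 : ℕ) : ℤ), ((u.2 : ℕ) : ℤ) - ((v.2 : ℕ) : ℤ), ?_, hb _ _, hb _ _, ?_⟩
  · intro h0
    apply huv
    rw [Prod.mk.injEq] at h0
    ext <;> omega
  · have : ((u.1 : ℕ) : ZMod p) - r * ((u.2 : ℕ) : ZMod p) = ((v.1 : ℕ) : ZMod p) - r * ((v.2 : ℕ) : ZMod p) := hf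
    push_cast
    linear_combination this

end Pool.Agent.BC90323.B6

namespace Pool.Agent.BC90323

/-- B6 -/
theorem exists_repr {p : ℕ} (hp : p.Prime) (hp2 : p ≠ 2)
    (h : p % 7 = 1 ∨ p % 7 = 2 ∨ p % 7 = 4) : ∃ x y : ℤ, (p : ℤ) = x ^ 2 + 7 * y ^ 2 := by
  have : Fact p.Prime := ⟨hp⟩
  obtain ⟨r, hr⟩ := B6.exists_sq hp2 h
  obtain ⟨x, y, hne, hx, hy, hxy⟩ := B6.thue hp r
  have hdvd : (p : ℤ) ∣ x ^ 2 + 7 * y ^ 2 := by
    rw [← ZMod.intCast_zmod_eq_zero_iff_dvd]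
    push_cast
    rw [hxy]
    linear_combination (y : ZMod p) ^ 2 * hr
  obtain ⟨m, hm⟩ := hdvd
  have hp0 : (0 : ℤ) < p := by exact_mod_cast hp.pos
  have hpodd : (p : ℤ) % 2 = 1 := by
    have := hp.eq_two_or_odd
    omega
  have hpos : 0 < x ^ 2 + 7 * y ^ 2 := by
    rcases eq_or_ne x 0 with hx0 | hx0
    · rcases eq_or_ne y 0 with hy0 | hy0
      · exact absurd (by rw [hx0, hy0]) hne
      · have : 0 < y ^ 2 := by positivity
        nlinarith [sq_nonneg x]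
    · have : 0 < x ^ 2 := by positivity
      nlinarith [sq_nonneg y]
  have hm0 : 0 < m := by
    by_contra hcon
    push Not at hcon
    nlinarith
  have hm8 : m < 8 := by
    by_contra hcon
    push Not at hcon
    nlinarith
  -- parity
  have key : ∀ m : ℤ, x ^ 2 + 7 * y ^ 2 = (p : ℤ) * m → m % 2 = 0 →
      m % 4 = 0 ∧ ∃ a b : ℤ, x = 2 * a ∧ y = 2 * b ∨ m % 8 = 0 := by
    intro m hm hm2
    obtain ⟨a, ha | ha⟩ := Int.even_or_odd' x <;> obtain ⟨b, hb | hb⟩ := Int.even_or_odd' y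
    · refine ⟨?_, a, b, Or.inl ⟨ha, hb⟩⟩
      subst ha hb
      have h1 : (p : ℤ) * m = 4 * (a ^ 2 + 7 * b ^ 2) := by rw [← hm]; ring
      have h2 : (4 : ℤ) ∣ (p : ℤ) * m := ⟨_, h1⟩
      have h3 : IsCoprime (4 : ℤ) (p : ℤ) := by
        have : IsCoprime (2 : ℤ) (p : ℤ) := ⟨-((p : ℤ) / 2), 1, by omega⟩
        have h4 := this.pow_left (m := 2)
        norm_num at h4
        exact h4
      exact Int.emod_eq_zero_of_dvd (h3.dvd_of_dvd_mul_left h2)
    · exfalso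
      subst ha hb
      obtain ⟨c, hc⟩ : ∃ c, m = 2 * c := ⟨m / 2, by omega⟩
      have : 4 * (a ^ 2 + 7 * b ^ 2 + 7 * b) + 7 = 2 * (p * c) := by rw [hc] at hm; linarith [hm]
      omega
    · exfalso
      subst ha hb
      obtain ⟨c, hc⟩ : ∃ c, m = 2 * c := ⟨m / 2, by omega⟩
      have : 4 * (a ^ 2 + a + 7 * b ^ 2) + 1 = 2 * (p * c) := by rw [hc] at hm; linarith [hm]
      omega
    · subst ha hb
      obtain ⟨s, hs⟩ : ∃ s, a * (a + 1) = 2 * s := (Int.even_mul_succ_self a).exists_two_nsmul _ |>.imp (by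
        intro s hs; simpa using hs)
      obtain ⟨t, ht⟩ : ∃ t, b * (b + 1) = 2 * t := (Int.even_mul_succ_self b).exists_two_nsmul _ |>.imp (by
        intro s hs; simpa using hs)
      have h1 : (p : ℤ) * m = 8 * (s + 7 * t + 1) := by
        rw [← hm]; linear_combination 4 * hs + 28 * ht
      have h2 : (8 : ℤ) ∣ (p : ℤ) * m := ⟨_, h1⟩
      have h3 : IsCoprime (8 : ℤ) (p : ℤ) := by
        have : IsCoprime (2 : ℤ) (p : ℤ) := ⟨-((p : ℤ) / 2), 1, by omega⟩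
        have h4 := this.pow_left (m := 3)
        norm_num at h4
        exact h4
      have h5 := Int.emod_eq_zero_of_dvd (h3.dvd_of_dvd_mul_left h2)
      exact ⟨by omega, 0, 0, Or.inr h5⟩
  have hp3 : (p : ℤ) ≠ 3 := by
    intro h3
    have h3' : p = 3 := by exact_mod_cast h3
    omega
  have hp5 : (p : ℤ) ≠ 5 := by
    intro h3
    have h3' : p = 5 := by exact_mod_cast h3
    omega
  have hpZ : Prime (p : ℤ) := Nat.prime_iff_prime_int.1 hp
  interval_cases m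
  · exact ⟨x, y, by linarith⟩
  · exfalso
    have := (key 2 hm (by norm_num)).1
    omega
  · exfalso
    have h3 : (x ^ 2 + y ^ 2) % 3 = 0 := by omega
    have hx3 : x % 3 = 0 ∧ y % 3 = 0 := by
      have h1 : x % 3 = 0 ∨ x % 3 = 1 ∨ x % 3 = 2 := by omega
      have h2 : y % 3 = 0 ∨ y % 3 = 1 ∨ y % 3 = 2 := by omega
      rcases h1 with h1 | h1 | h1 <;> rcases h2 with h2 | h2 | h2 <;>
        simp [Int.add_emod, pow_two, Int.mul_emod, h1, h2] at h3 ⊢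
    obtain ⟨a, ha⟩ : ∃ a, x = 3 * a := ⟨x / 3, by omega⟩
    obtain ⟨b, hb⟩ : ∃ b, y = 3 * b := ⟨y / 3, by omega⟩
    subst ha hb
    have h4 : (p : ℤ) = 3 * (a ^ 2 + 7 * b ^ 2) := by linarith [hm]
    have h5 : (3 : ℤ) ∣ p := ⟨_, h4⟩
    have h6 : (3 : ℕ) ∣ p := by exact_mod_cast h5
    have h7 := (Nat.prime_dvd_prime_iff_eq (by norm_num) hp).1 h6
    exact hp3 (by exact_mod_cast h7.symm)
  · obtain ⟨-, a, b, ⟨ha, hb⟩ | h8⟩ := key 4 hm (by norm_num)
    · subst ha hb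
      exact ⟨a, b, by linarith [hm]⟩
    · exfalso; omega
  · exfalso
    have h3 : (x ^ 2 + 2 * y ^ 2) % 5 = 0 := by omega
    have hx3 : x % 5 = 0 ∧ y % 5 = 0 := by
      have h1 : x % 5 = 0 ∨ x % 5 = 1 ∨ x % 5 = 2 ∨ x % 5 = 3 ∨ x % 5 = 4 := by omega
      have h2 : y % 5 = 0 ∨ y % 5 = 1 ∨ y % 5 = 2 ∨ y % 5 = 3 ∨ y % 5 = 4 := by omega
      rcases h1 with h1 | h1 | h1 | h1 | h1 <;> rcases h2 with h2 | h2 | h2 | h2 | h2 <;>
        simp [Int.add_emod, pow_two, Int.mul_emod, h1, h2] at h3 ⊢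
    obtain ⟨a, ha⟩ : ∃ a, x = 5 * a := ⟨x / 5, by omega⟩
    obtain ⟨b, hb⟩ : ∃ b, y = 5 * b := ⟨y / 5, by omega⟩
    subst ha hb
    have h4 : (p : ℤ) = 5 * (a ^ 2 + 7 * b ^ 2) := by linarith [hm]
    have h5 : (5 : ℤ) ∣ p := ⟨_, h4⟩
    have h6 : (5 : ℕ) ∣ p := by exact_mod_cast h5
    have h7 := (Nat.prime_dvd_prime_iff_eq (by norm_num) hp).1 h6
    exact hp5 (by exact_mod_cast h7.symm)
  · exfalso
    have := (key 6 hm (by norm_num)).1
    omega
  · have h7 : (7 : ℤ) ∣ x ^ 2 := ⟨(p : ℤ) - y ^ 2, by linarith⟩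
    have h8 : (7 : ℤ) ∣ x := Prime.dvd_of_dvd_pow (by norm_num) h7
    obtain ⟨a, ha⟩ := h8
    subst ha
    exact ⟨y, a, by linarith [hm]⟩

/-- B7 (Hensel) -/
theorem exists_sqrt {p : ℕ} [Fact p.Prime] (hp7 : p ≠ 7) (hp2 : p ≠ 2) (x y : ℤ)
    (h : (p : ℤ) = x ^ 2 + 7 * y ^ 2) : ∃ s : ℤ_[p], s ^ 2 = -7 := by
  have hp : p.Prime := Fact.out
  have hp0 : (0 : ℤ) < p := by exact_mod_cast hp.pos
  have hpZ : Prime (p : ℤ) := Nat.prime_iff_prime_int.1 hp
  -- `p` does not divide `y`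
  have hy : ¬ (p : ℤ) ∣ y := by
    rintro ⟨c, rfl⟩
    have hc : c ≠ 0 := by
      rintro rfl
      have : (p : ℤ) = x ^ 2 := by linarith
      have h2 : ¬ Prime (p : ℤ) := by
        rw [this]
        intro h3
        have := h3.irreducible
        exact (not_irreducible_pow (n := 2) (by norm_num)) this
      exact h2 hpZ
    have h1 : 1 ≤ c ^ 2 := by
      have : 0 < c ^ 2 := by positivity
      omega
    nlinarith [sq_nonneg x, mul_pos hp0 hp0]
  have hyc : IsCoprime (p : ℤ) y := (Prime.coprime_iff_not_dvd hpZ).2 hy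
  obtain ⟨u, v, huv⟩ := hyc
  -- `a = x * v` satisfies `a ^ 2 + 7 = 0` mod `p`
  have ha : (p : ℤ) ∣ (x * v) ^ 2 + 7 := by
    refine ⟨v ^ 2 + 7 * u * (1 + v * y), ?_⟩
    have e1 : x ^ 2 = (p : ℤ) - 7 * y ^ 2 := by linarith
    have e2 : v * y = 1 - u * p := by linarith
    calc (x * v) ^ 2 + 7 = x ^ 2 * v ^ 2 + 7 := by ring
      _ = (p : ℤ) * v ^ 2 - 7 * (v * y) ^ 2 + 7 := by rw [e1]; ring
      _ = (p : ℤ) * (v ^ 2 + 7 * u * (1 + v * y)) := by rw [e2]; ring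
  set F : Polynomial ℤ_[p] := Polynomial.X ^ 2 + Polynomial.C 7 with hF
  set a : ℤ_[p] := ((x * v : ℤ) : ℤ_[p]) with hadef
  have hFa : F.eval a = (((x * v) ^ 2 + 7 : ℤ) : ℤ_[p]) := by
    simp only [hF, hadef, Polynomial.eval_add, Polynomial.eval_pow, Polynomial.eval_X,
      Polynomial.eval_C]
    push_cast
    ring
  have hder : F.derivative.eval a = ((2 * (x * v) : ℤ) : ℤ_[p]) := by
    simp only [hF, hadef, Polynomial.derivative_add, Polynomial.derivative_X_pow,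
      Polynomial.derivative_C, add_zero]
    simp
  have hn1 : ‖F.eval a‖ < 1 := by
    rw [hFa]
    exact (PadicInt.norm_int_lt_one_iff_dvd _).2 ha
  have hnd : ¬ (p : ℤ) ∣ 2 * (x * v) := by
    intro hd
    rcases hpZ.dvd_or_dvd hd with h2 | h2
    · have : (p : ℕ) ∣ 2 := by exact_mod_cast h2
      exact hp2 ((Nat.prime_dvd_prime_iff_eq hp Nat.prime_two).1 this)
    · have h3 : (p : ℤ) ∣ 7 := by
        have h4 : (p : ℤ) ∣ (x * v) ^ 2 := dvd_pow h2 (by norm_num)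
        have h5 := dvd_sub ha h4
        simpa using h5
      have : (p : ℕ) ∣ 7 := by exact_mod_cast h3
      exact hp7 ((Nat.prime_dvd_prime_iff_eq hp (by norm_num)).1 this)
  have hn2 : ‖F.derivative.eval a‖ = 1 := by
    rw [hder]
    refine le_antisymm (PadicInt.norm_le_one _) ?_
    by_contra hcon
    push Not at hcon
    exact hnd ((PadicInt.norm_int_lt_one_iff_dvd _).1 hcon)
  obtain ⟨z, hz, -⟩ := hensels_lemma (F := F) (a := a) (by
    have e1 : Polynomial.aeval a F = F.eval a := by simp [Polynomial.aeval_def, Polynomial.eval₂_id]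
    have e2 : Polynomial.aeval a F.derivative = F.derivative.eval a := by simp [Polynomial.aeval_def, Polynomial.eval₂_id]
    rw [e1, e2, hn2]
    simpa using hn1)
  refine ⟨z, ?_⟩
  have e3 : Polynomial.aeval z F = z ^ 2 + 7 := by
    simp [hF]
  rw [e3] at hz
  linear_combination hz

end Pool.Agent.BC90323
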