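import Mathlib

set_option autoImplicit false

/-!
From the two values of the truncated series to the sum of the problem.
-/

namespace Pool.Agent.BC90323

namespace B8

/-- Closed form of the recursive sequence. -/
theorem seq_eq {R : Type*} [CommRing R] (A : ℕ → ℤ) (hA0 : A 0 = 0) (hA1 : A 1 = 1)
    (hA : ∀ n, A (n + 2) = 5 * A (n + 1) - 8 * A n) (s ω ω' : R) (h1 : ω + ω' = 1)
    (h2 : ω * ω' = 2) (hs : s = ω - ω') (n : ℕ) :
    (A n : R) * s = (-ω ^ 3) ^ n - (-ω' ^ 3) ^ n := by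
  have hω : ω ^ 3 = -ω - 2 := by
    have : ω' = 1 - ω := by linear_combination h1
    rw [this] at h2
    linear_combination (-ω - 1) * h2
  have hω' : ω' ^ 3 = -ω' - 2 := by
    have : ω = 1 - ω' := by linear_combination h1
    rw [this] at h2
    linear_combination (-ω' - 1) * h2
  have e1 : -ω ^ 3 = ω + 2 := by rw [hω]; ring
  have e2 : -ω' ^ 3 = ω' + 2 := by rw [hω']; ring
  rw [e1, e2]
  induction n using Nat.twoStepInduction with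
  | zero => rw [hA0]; simp
  | one => rw [hA1, hs]; push_cast; ring
  | more n ih1 ih2 =>
    rw [hA]
    push_cast
    have g1 : (ω + 2) ^ 2 = 5 * (ω + 2) - 8 := by
      have : ω' = 1 - ω := by linear_combination h1
      rw [this] at h2
      linear_combination -h2
    have g2 : (ω' + 2) ^ 2 = 5 * (ω' + 2) - 8 := by
      have : ω = 1 - ω' := by linear_combination h1
      rw [this] at h2
      linear_combination -h2
    have g3 : (ω + 2) ^ (n + 2) = (ω + 2) ^ n * (5 * (ω + 2) - 8) := by rw [pow_add, g1]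
    have g4 : (ω' + 2) ^ (n + 2) = (ω' + 2) ^ n * (5 * (ω' + 2) - 8) := by rw [pow_add, g2]
    rw [g3, g4]
    linear_combination 5 * ih2 - 8 * ih1

end B8

/-- B8 (from the two values to the sum of the problem) -/
theorem sum_transfer {p : ℕ} [Fact p.Prime] (hp2 : p ≠ 2) (hp7 : p ≠ 7) (s : ℤ_[p])
    (hs : s ^ 2 = -7) (A : ℕ → ℤ) (hA0 : A 0 = 0) (hA1 : A 1 = 1)
    (hA : ∀ n, A (n + 2) = 5 * A (n + 1) - 8 * A n) (b : ℚ_[p])
    (h : ∀ ω : ℤ_[p], (2 * ω - 1) ^ 2 = -7 → ∃ z : ℤ_[p],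
      ∑ k ∈ Finset.range p, ((2 * k).choose k : ℚ_[p]) ^ 3 * (-1 / (ω : ℚ_[p]) ^ 12) ^ k - b =
        (p : ℚ_[p]) ^ 3 * (z : ℚ_[p])) :
    (p : ℤ) ^ 3 ∣
      (∑ k ∈ Finset.range p, (A (4 * k) : ℚ) * ((2 * k).choose k : ℚ) ^ 3 / (-4096) ^ k).num := by
  have hpp : p.Prime := Fact.out
  -- `2` and `s` are units
  have h2 : IsUnit (2 : ℤ_[p]) := by
    rw [PadicInt.isUnit_iff]
    by_contra hne
    have hlt : ‖((2 : ℤ) : ℤ_[p])‖ < 1 := lt_of_le_of_ne (PadicInt.norm_le_one _) (by simpa using hne)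
    rw [PadicInt.norm_int_lt_one_iff_dvd] at hlt
    have : p ∣ 2 := by exact_mod_cast hlt
    exact hp2 ((Nat.prime_dvd_prime_iff_eq hpp Nat.prime_two).1 this)
  have hsn : ‖s‖ = 1 := by
    by_contra hne
    have hlt : ‖s‖ < 1 := lt_of_le_of_ne (PadicInt.norm_le_one _) hne
    have h7 : ‖((-7 : ℤ) : ℤ_[p])‖ < 1 := by
      have e : ((-7 : ℤ) : ℤ_[p]) = s ^ 2 := by rw [hs]; norm_num
      rw [e, norm_pow]
      have := norm_nonneg s
      nlinarith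
    rw [PadicInt.norm_int_lt_one_iff_dvd] at h7
    have h8 : (p : ℤ) ∣ 7 := by simpa using h7
    have : p ∣ 7 := by exact_mod_cast h8
    exact hp7 ((Nat.prime_dvd_prime_iff_eq hpp (by norm_num)).1 this)
  obtain ⟨u, hu⟩ := h2
  -- `ω` and `ω'`
  have hinv : (2 : ℤ_[p]) * (↑u⁻¹ : ℤ_[p]) = 1 := by rw [← hu]; exact u.mul_inv
  set ω : ℤ_[p] := (1 + s) * (↑u⁻¹ : ℤ_[p]) with hω
  set ω' : ℤ_[p] := (1 - s) * (↑u⁻¹ : ℤ_[p]) with hω'
  have e1 : 2 * ω = 1 + s := by rw [hω]; linear_combination (1 + s) * hinv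
  have e2 : 2 * ω' = 1 - s := by rw [hω']; linear_combination (1 - s) * hinv
  have h2ne : (2 : ℤ_[p]) ≠ 0 := by
    intro h0
    rw [h0, zero_mul] at hinv
    exact zero_ne_one hinv
  have e3 : ω + ω' = 1 := by
    apply mul_left_cancel₀ h2ne
    linear_combination e1 + e2
  have e4 : ω * ω' = 2 := by
    apply mul_left_cancel₀ h2ne
    apply mul_left_cancel₀ h2ne
    linear_combination (2 * ω') * e1 + (1 + s) * e2 - hs
  have e5 : s = ω - ω' := by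
    apply mul_left_cancel₀ h2ne
    linear_combination -e1 + e2
  obtain ⟨z, hz⟩ := h ω (by linear_combination (2 * ω - 1 + s) * e1 + hs)
  obtain ⟨z', hz'⟩ := h ω' (by linear_combination (2 * ω' - 1 - s) * e2 + hs)
  -- pass to `ℚ_p`
  have f4 : (ω : ℚ_[p]) * (ω' : ℚ_[p]) = 2 := by
    have := congrArg (fun x : ℤ_[p] => (x : ℚ_[p])) e4
    have g : (((2 : ℤ_[p])) : ℚ_[p]) = 2 := by
      have := PadicInt.coe_natCast (p := p) 2
      exact_mod_cast this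
    simp only [PadicInt.coe_mul, g] at this
    exact this
  have hω0 : (ω : ℚ_[p]) ≠ 0 := by
    intro h0; rw [h0, zero_mul] at f4; exact two_ne_zero f4.symm
  have hω'0 : (ω' : ℚ_[p]) ≠ 0 := by
    intro h0; rw [h0, mul_zero] at f4; exact two_ne_zero f4.symm
  have f6 : ∀ k : ℕ, (A (4 * k) : ℚ_[p]) * (s : ℚ_[p]) =
      ((ω : ℚ_[p]) ^ 12) ^ k - ((ω' : ℚ_[p]) ^ 12) ^ k := by
    intro k
    have := congrArg (fun x : ℤ_[p] => (x : ℚ_[p])) (B8.seq_eq A hA0 hA1 hA s ω ω' e3 e4 e5 (4 * k))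
    simp only [PadicInt.coe_mul, PadicInt.coe_intCast, PadicInt.coe_sub, PadicInt.coe_pow,
      PadicInt.coe_neg] at this
    rw [this, pow_mul, pow_mul]
    ring
  set q : ℚ := ∑ k ∈ Finset.range p,
    (A (4 * k) : ℚ) * ((2 * k).choose k : ℚ) ^ 3 / (-4096) ^ k with hq
  have f7 : (q : ℚ_[p]) * (s : ℚ_[p]) = (p : ℚ_[p]) ^ 3 * ((z' : ℚ_[p]) - (z : ℚ_[p])) := by
    have g1 : (q : ℚ_[p]) * (s : ℚ_[p]) =
        ∑ k ∈ Finset.range p, ((2 * k).choose k : ℚ_[p]) ^ 3 * (-1 / (ω' : ℚ_[p]) ^ 12) ^ k -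
        ∑ k ∈ Finset.range p, ((2 * k).choose k : ℚ_[p]) ^ 3 * (-1 / (ω : ℚ_[p]) ^ 12) ^ k := by
      rw [hq, ← Finset.sum_sub_distrib]
      push_cast
      rw [Finset.sum_mul]
      refine Finset.sum_congr rfl fun k _ => ?_
      have g2 : (-4096 : ℚ_[p]) = -((ω : ℚ_[p]) * (ω' : ℚ_[p])) ^ 12 := by rw [f4]; norm_num
      have g3 : (A (4 * k) : ℚ_[p]) * ((2 * k).choose k : ℚ_[p]) ^ 3 / (-4096) ^ k *
          (s : ℚ_[p]) = ((A (4 * k) : ℚ_[p]) * (s : ℚ_[p])) * ((2 * k).choose k : ℚ_[p]) ^ 3 /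
          (-4096) ^ k := by ring
      rw [g3, f6, g2]
      have g4 : (-1 / (ω' : ℚ_[p]) ^ 12) ^ k = (-1) ^ k / ((ω' : ℚ_[p]) ^ 12) ^ k := div_pow _ _ _
      have g5 : (-1 / (ω : ℚ_[p]) ^ 12) ^ k = (-1) ^ k / ((ω : ℚ_[p]) ^ 12) ^ k := div_pow _ _ _
      have g6 : (-((ω : ℚ_[p]) * (ω' : ℚ_[p])) ^ 12) ^ k =
          (-1) ^ k * (((ω : ℚ_[p]) ^ 12) ^ k * ((ω' : ℚ_[p]) ^ 12) ^ k) := by
        rw [← mul_pow, ← mul_pow, ← mul_pow]
        congr 1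
        ring
      rw [g4, g5, g6]
      have g7 : ((-1 : ℚ_[p]) ^ k) * (-1) ^ k = 1 := by rw [← mul_pow]; norm_num
      have g8 : ((ω : ℚ_[p]) ^ 12) ^ k ≠ 0 := pow_ne_zero _ (pow_ne_zero _ hω0)
      have g9 : ((ω' : ℚ_[p]) ^ 12) ^ k ≠ 0 := pow_ne_zero _ (pow_ne_zero _ hω'0)
      have g10 : ((-1 : ℚ_[p]) ^ k) ≠ 0 := pow_ne_zero _ (by norm_num)
      field_simp
      linear_combination (-(((ω : ℚ_[p]) ^ 12) ^ k - ((ω' : ℚ_[p]) ^ 12) ^ k) *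
        ((2 * k).choose k : ℚ_[p]) ^ 3) * g7
    rw [g1]
    linear_combination hz' - hz
  -- norms
  have hsn' : ‖(s : ℚ_[p])‖ = 1 := by rw [PadicInt.padic_norm_e_of_padicInt]; exact hsn
  have hqn : ‖(q : ℚ_[p])‖ ≤ (p : ℝ) ^ (-(3 : ℕ) : ℤ) := by
    have g1 : ‖(q : ℚ_[p])‖ = ‖(q : ℚ_[p]) * (s : ℚ_[p])‖ := by rw [norm_mul, hsn', mul_one]
    rw [g1, f7, norm_mul, norm_pow, Padic.norm_p, ← PadicInt.coe_sub,
      PadicInt.padic_norm_e_of_padicInt]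
    have g2 : ‖z' - z‖ ≤ 1 := PadicInt.norm_le_one _
    calc ((p : ℝ)⁻¹) ^ 3 * ‖z' - z‖ ≤ ((p : ℝ)⁻¹) ^ 3 * 1 := by gcongr
      _ = (p : ℝ) ^ (-(3 : ℕ) : ℤ) := by rw [mul_one, inv_pow, zpow_neg, zpow_natCast]
  have hnum : ‖((q.num : ℤ) : ℚ_[p])‖ ≤ (p : ℝ) ^ (-(3 : ℕ) : ℤ) := by
    have g1 : ((q.num : ℤ) : ℚ_[p]) = ((q.den : ℤ) : ℚ_[p]) * (q : ℚ_[p]) := by
      have := Rat.den_mul_eq_num q
      exact_mod_cast this.symm
    rw [g1, norm_mul]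
    have g2 : ‖((q.den : ℤ) : ℚ_[p])‖ ≤ 1 := Padic.norm_int_le_one _
    calc ‖((q.den : ℤ) : ℚ_[p])‖ * ‖(q : ℚ_[p])‖ ≤ 1 * ‖(q : ℚ_[p])‖ := by gcongr
      _ ≤ _ := by rw [one_mul]; exact hqn
  have := (Padic.norm_int_le_pow_iff_dvd q.num 3).1 hnum
  exact_mod_cast this

end Pool.Agent.BC90323
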