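import Mathlib
import Pool.Agent.DF49E3.P10
import Pool.Agent.BC90323.B5
import Pool.Agent.BC90323.B1
import Pool.Agent.BC90323.B2
import Pool.Agent.BC90323.B3
import Pool.Agent.BC90323.B4
import Pool.Agent.BC90323.B6
import Pool.Agent.BC90323.B8

set_option autoImplicit false

/-!
Assembly for MP_90323e_nt.
-/

namespace Pool.Agent.BC90323.B9

open PowerSeries Pool.Agent.DF49E3 Pool.Agent.DF49E3.P10

variable {p : ℕ} [Fact p.Prime]

/-- The truncated series at the point `-1/ω¹²` is the square of the unit root modulo `p³`. -/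
theorem value (hp11 : 8 ≤ p) (x y : ℤ) (hxy : (p : ℤ) = x ^ 2 + 7 * y ^ 2) (s ω : ℤ_[p])
    (hω : 2 * ω = 1 + s) (hs : s ^ 2 = -7) (hdvd : (p : ℤ_[p]) ∣ (x : ℤ_[p]) + y * s) :
    ∃ z : ℤ_[p], ∑ k ∈ Finset.range p,
        ((2 * k).choose k : ℚ_[p]) ^ 3 * (-1 / (ω : ℚ_[p]) ^ 12) ^ k -
      ((x - y * s : ℤ_[p]) : ℚ_[p]) ^ 2 = (p : ℚ_[p]) ^ 3 * (z : ℚ_[p]) := by
  have hpp : p.Prime := Fact.out
  have hp5 : 5 ≤ p := by omega
  have hp2 : p ≠ 2 := by omega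
  have hodd : p % 2 = 1 := by
    rcases hpp.eq_two_or_odd with h | h
    · omega
    · exact h
  obtain ⟨n, hn⟩ : ∃ n, p = 2 * n + 1 := ⟨p / 2, by omega⟩
  obtain ⟨h, hh⟩ : ∃ h : ℤ_[p], 2 * h = 1 := by
    have h2 : IsUnit ((2 : ℕ) : ℤ_[p]) := isUnit_nat 2 ((Nat.coprime_primes hpp Nat.prime_two).2 hp2)
    obtain ⟨h, hh⟩ := h2.exists_right_inv
    exact ⟨h, by simpa using hh⟩
  have hω2 : ω ^ 2 - ω + 2 = 0 := by
    have h1 : 4 * (ω ^ 2 - ω + 2) = 0 := by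
      linear_combination (2 * ω + s - 1) * hω + hs
    have h2 : (4 : ℤ_[p]) ≠ 0 := by
      intro h0
      have h4 : ((4 : ℕ) : ℤ_[p]) = 0 := by rw [Nat.cast_ofNat]; exact h0
      exact absurd (Nat.cast_eq_zero.1 h4) (by norm_num)
    exact (mul_eq_zero.1 h1).resolve_left h2
  -- the inverse of `ω`
  obtain ⟨ω', hω'⟩ : ∃ ω' : ℤ_[p], ω * ω' = 1 := by
    refine ⟨h * (1 - ω), ?_⟩
    linear_combination (-h) * hω2 + hh
  obtain ⟨a, ha⟩ : ∃ a, a = 3 * ω' ^ 3 := ⟨_, rfl⟩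
  have haω : a * ω ^ 3 = 3 := by
    rw [ha]
    have h1 : (ω * ω') ^ 3 = 1 := by rw [hω', one_pow]
    linear_combination 3 * h1
  have hω3 : ω ^ 3 = -ω - 2 := by
    linear_combination (ω + 1) * hω2
  have hω6 : ω ^ 6 = 5 * ω + 2 := by
    have h1 : ω ^ 6 = (ω ^ 3) ^ 2 := by ring
    rw [h1, hω3]
    linear_combination hω2
  have ha2 : (1 - a ^ 2) * ω ^ 12 = -64 := by
    have h1 : a ^ 2 * ω ^ 6 = 9 := by
      have : (a * ω ^ 3) ^ 2 = 9 := by rw [haω]; norm_num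
      linear_combination this
    have h2 : (1 - a ^ 2) * ω ^ 12 = (ω ^ 6 - a ^ 2 * ω ^ 6) * ω ^ 6 := by ring
    rw [h2, h1, hω6]
    linear_combination 25 * hω2
  -- the base series
  obtain ⟨w, G, hb, hwG, hG, hGodd⟩ := exists_base hp2 a
  have hs1 : 2 * ω = 1 + s := hω
  have hES : ES a w (1 + s) 1 := by
    obtain ⟨R, S, r, s', h1, h2⟩ := exists_gen hp2 a ω hω2 haω w hb
    rw [hs1] at h1
    exact ⟨R, S, h1, r, s', h2⟩
  have hRS : RS a w (1 + s) := hES.rs hb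
  have hch : ∀ m : ℕ, m ≠ 0 → (m : ℤ_[p]) ≠ 0 := fun m hm => Nat.cast_ne_zero.2 hm
  have ha1 : a ^ 2 ≠ 1 := by
    intro h1
    rw [h1, sub_self, zero_mul] at ha2
    have h6 : ((64 : ℕ) : ℤ_[p]) = 0 := by
      rw [Nat.cast_ofNat]; linear_combination ha2
    exact absurd (Nat.cast_eq_zero.1 h6) (by norm_num)
  have ha1' : (φ p a) ^ 2 ≠ 1 := by
    intro h1
    apply ha1
    have h2 : φ p (a ^ 2) = φ p 1 := by rw [map_pow, h1, map_one]
    exact (FaithfulSMul.algebraMap_injective ℤ_[p] ℚ_[p]) h2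
  obtain ⟨c, hc⟩ := hdvd
  obtain ⟨α, hα⟩ : ∃ α : ℤ_[p], α = x + y * s := ⟨_, rfl⟩
  obtain ⟨β, hβ'⟩ : ∃ β : ℤ_[p], β = x - y * s := ⟨_, rfl⟩
  have hp' : (p : ℤ_[p]) = x ^ 2 + 7 * y ^ 2 := by
    have := congrArg (Int.cast : ℤ → ℤ_[p]) hxy
    push_cast at this
    exact this
  have hαβ : α * β = p := by
    rw [hα, hβ', hp']
    linear_combination -(y : ℤ_[p]) ^ 2 * hs
  have hp0 : (p : ℤ_[p]) ≠ 0 := hch p hpp.ne_zero
  have hcβ : c * β = 1 := by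
    have : (p : ℤ_[p]) * (c * β) = p * 1 := by
      rw [← mul_assoc, ← hc, ← hα, hαβ, mul_one]
    exact mul_left_cancel₀ hp0 this
  have hβu : IsUnit β := IsUnit.of_mul_eq_one c (by rw [mul_comm]; exact hcβ)
  have hpar : (x - y) % 2 = 1 := by
    have h1 : (x ^ 2 + 7 * y ^ 2) % 2 = 1 := by rw [← hxy]; omega
    have h2 : x ^ 2 + 7 * y ^ 2 = (x - y) ^ 2 + 2 * (x * y + 3 * y ^ 2) := by ring
    have h3 : (x - y) ^ 2 % 2 = 1 := by omega
    rcases Int.emod_two_eq_zero_or_one (x - y) with h4 | h4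
    · exfalso
      obtain ⟨m, hm⟩ := Int.dvd_of_emod_eq_zero h4
      rw [hm] at h3
      have h5 : (2 * m) ^ 2 = 2 * (2 * m ^ 2) := by ring
      omega
    · exact h4
  obtain ⟨ρ, hρ⟩ : ∃ ρ : ℚ_[p], ρ = if (x - y) % 4 = 1 then 1 else -1 := ⟨_, rfl⟩
  have hOS : OS a w α ρ := by
    have h1 := OS.all ha1' hb hES (x - y) y hpar
    rw [← hρ] at h1
    have e1 : (((x - y : ℤ) : ℤ_[p]) + ((y : ℤ) : ℤ_[p]) * (1 + s)) = α := by
      rw [hα]; push_cast; ring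
    rwa [e1] at h1
  obtain ⟨R, S, hsol, r, s', hodd'⟩ := hOS
  -- the degree
  have hfam : ∀ u v : ℤ, ∃ (R S : ℚ_[p]⟦X⟧) (f g : RatFunc ℚ_[p]),
      Sol (φ p a) (PowerSeries.map (φ p) w) (u + v * φ p s) R S ∧
      IsRat (PowerSeries.map (φ p) w) R S f g := by
    intro u v
    obtain ⟨R, S, h1, f, g, h2⟩ := RS.all hb hRS (u - v) v
    refine ⟨_, _, f, g, ?_, h2⟩
    have h3 := h1.map (φ p)
    have e1 : φ p (((u - v : ℤ) : ℤ_[p]) + ((v : ℤ) : ℤ_[p]) * (1 + s)) =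
        u + v * φ p s := by
      simp only [map_add, map_mul, map_one, map_intCast, Int.cast_sub, map_sub]
      ring
    rw [e1] at h3
    exact h3
  choose R' S' f' g' hR'1 hR'2 using hfam
  have hσ : (φ p s) ^ 2 = -((7 : ℤ) : ℚ_[p]) := by
    rw [← map_pow, hs, map_neg, map_ofNat]; norm_num
  have hdeg := BC90323.ht_norm ha1' (hb.map (φ p)) 7 (by norm_num) (φ p s) hσ R' S' f' g'
    hR'1 hR'2 x y
  have hR'' : R' x y = PowerSeries.map (φ p) R ∧ S' x y = PowerSeries.map (φ p) S := by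
    have h1 := hsol.map (φ p)
    have e1 : φ p α = x + y * φ p s := by
      rw [hα]; simp
    rw [e1] at h1
    exact Sol.unique (hb.map (φ p)) (hR'1 x y) h1
  have hff : f' x y = RatFunc.X * r ^ 2 := by
    apply jj_injective
    rw [← (hR'2 x y).1, ← hodd'.isRat.1, hR''.1]
  have hht : ht (RatFunc.X * r ^ 2) = 2 * n + 1 := by
    rw [← hff]
    have : (ht (f' x y) : ℤ) = (p : ℤ) := by rw [hdeg, hxy]
    omega
  obtain ⟨D, hD1, hD2, hD3⟩ := extract_D hodd' n hht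
  obtain ⟨z, hz⟩ := final_congr3 n hn hp5 a α β w G R S hb hwG hG hGodd hsol hαβ hβu D hD1 hD2 ρ
    hodd'.sq hD3
  obtain ⟨z', hz'⟩ := cube_congr n hn hp5 a
  refine ⟨z + z', ?_⟩
  have hz0 : (1 - (a : ℚ_[p]) ^ 2) / 64 = -1 / (ω : ℚ_[p]) ^ 12 := by
    have h1 : (1 - (a : ℚ_[p]) ^ 2) * (ω : ℚ_[p]) ^ 12 = -64 := by
      have := congrArg (φ p) ha2
      simp only [map_mul, map_sub, map_pow, map_neg, map_one, map_ofNat] at this
      exact this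
    have h2 : (ω : ℚ_[p]) ^ 12 ≠ 0 := by
      intro h0
      rw [h0, mul_zero] at h1
      norm_num at h1
    rw [div_eq_div_iff (by norm_num) h2]
    rw [h1]; norm_num
  rw [hz0] at hz'
  rw [← hα] at *
  have e1 : ((x - y * s : ℤ_[p]) : ℚ_[p]) = (β : ℚ_[p]) := by rw [hβ']
  rw [e1]
  push_cast
  linear_combination hz + hz'

/-- The supercongruence. -/
theorem main {p : ℕ} [Fact p.Prime] (hp2 : p ≠ 2) (hp : p % 7 = 1 ∨ p % 7 = 2 ∨ p % 7 = 4)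
    (A : ℕ → ℤ) (hA0 : A 0 = 0) (hA1 : A 1 = 1)
    (hA : ∀ n, A (n + 2) = 5 * A (n + 1) - 8 * A n) :
    (p : ℤ) ^ 3 ∣
      (∑ k ∈ Finset.range p, (A (4 * k) : ℚ) * ((2 * k).choose k : ℚ) ^ 3 / (-4096) ^ k).num := by
  have hpp : p.Prime := Fact.out
  have hp8 : 8 ≤ p := by
    have := hpp.two_le
    by_contra hcon
    have : p ≤ 7 := by omega
    interval_cases p <;> first | omega | exact absurd hpp (by norm_num)
  obtain ⟨x, y, hxy⟩ := exists_repr hpp hp2 hp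
  obtain ⟨s, hs⟩ := exists_sqrt (by omega) hp2 x y hxy
  have hp0 : (p : ℤ_[p]) ≠ 0 := Nat.cast_ne_zero.2 hpp.ne_zero
  -- the choice of the sign of `y`
  obtain ⟨y', hy', hdvd⟩ : ∃ y' : ℤ, (p : ℤ) = x ^ 2 + 7 * y' ^ 2 ∧
      (p : ℤ_[p]) ∣ (x : ℤ_[p]) + y' * s := by
    have h1 : ((x : ℤ_[p]) + y * s) * (x + (-y : ℤ) * s) = p := by
      have h2 : (p : ℤ_[p]) = x ^ 2 + 7 * y ^ 2 := by
        have := congrArg (Int.cast : ℤ → ℤ_[p]) hxy
        push_cast at this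
        exact this
      rw [h2]; push_cast
      linear_combination -(y : ℤ_[p]) ^ 2 * hs
    have h2 : (p : ℤ_[p]) ∣ ((x : ℤ_[p]) + y * s) * (x + (-y : ℤ) * s) := by rw [h1]
    rcases (PadicInt.prime_p (p := p)).dvd_or_dvd h2 with h3 | h3
    · exact ⟨y, hxy, h3⟩
    · exact ⟨-y, by rw [hxy]; ring, h3⟩
  refine sum_transfer hp2 (by omega) s hs A hA0 hA1 hA (((x - y' * s : ℤ_[p]) : ℚ_[p]) ^ 2) ?_
  intro ω hω
  have h1 : (2 * ω - 1 - s) * (2 * ω - 1 + s) = 0 := by linear_combination hω - hs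
  rcases mul_eq_zero.1 h1 with h2 | h2
  · exact value hp8 x y' hy' s ω (by linear_combination h2) hs hdvd
  · have h3 : (p : ℤ_[p]) ∣ (x : ℤ_[p]) + ((-y' : ℤ) : ℤ_[p]) * (-s) := by
      have e : (x : ℤ_[p]) + ((-y' : ℤ) : ℤ_[p]) * (-s) = x + y' * s := by push_cast; ring
      rw [e]; exact hdvd
    obtain ⟨z, hz⟩ := value hp8 x (-y') (by rw [hy']; ring) (-s) ω (by linear_combination h2)
      (by rw [neg_sq]; exact hs) h3
    refine ⟨z, ?_⟩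
    have e : (x : ℤ_[p]) - ((-y' : ℤ) : ℤ_[p]) * (-s) = x - y' * s := by
      rw [Int.cast_neg, neg_mul_neg]
    rw [e] at hz
    exact hz

end Pool.Agent.BC90323.B9
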